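import Pool.Agent.Tam.Gen

/-!
# The Tammes problem (MP_97a6ed_co): Archimedes

The part of the unit ball outside a double cone.
-/

namespace Tam

open Real MeasureTheory Set

private lemma ofReal_ball (a : ℝ) (ha : 0 ≤ a) :
    volume (Metric.ball (0 : ℂ) (√a)) = ENNReal.ofReal (π * a) := by
  rw [Complex.volume_ball, ← ENNReal.ofReal_pow (Real.sqrt_nonneg a), Real.sq_sqrt ha, mul_comm π a,
    ENNReal.ofReal_mul ha, ← NNReal.coe_real_pi, ENNReal.ofReal_coe_nnreal]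

private lemma slice {σ : ℝ} (h0 : 0 < σ) (h1 : σ ≤ 1) (z : ℝ) :
    volume {w : Fin 2 → ℝ | z ^ 2 + (w 0 ^ 2 + w 1 ^ 2) < 1 ∧
      z ^ 2 ≤ σ ^ 2 * (z ^ 2 + (w 0 ^ 2 + w 1 ^ 2))} =
    (Ioc (-σ) σ).indicator (fun z => ENNReal.ofReal (π * (1 - z ^ 2 / σ ^ 2))) z := by
  have hs2 : 0 < σ ^ 2 := by positivity
  have hm : MeasurableSet {w : Fin 2 → ℝ | z ^ 2 + (w 0 ^ 2 + w 1 ^ 2) < 1 ∧
      z ^ 2 ≤ σ ^ 2 * (z ^ 2 + (w 0 ^ 2 + w 1 ^ 2))} := by
    have c1 : Continuous (fun w : Fin 2 → ℝ => z ^ 2 + (w 0 ^ 2 + w 1 ^ 2)) := by fun_prop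
    have c2 : Continuous (fun w : Fin 2 → ℝ => σ ^ 2 * (z ^ 2 + (w 0 ^ 2 + w 1 ^ 2))) := by
      fun_prop
    exact MeasurableSet.inter (isOpen_lt c1 continuous_const).measurableSet
      (isClosed_le continuous_const c2).measurableSet
  by_cases hz : z ^ 2 < σ ^ 2
  · have hzabs : |z| < σ := abs_lt_of_sq_lt_sq hz h0.le
    have hmem : z ∈ Ioc (-σ) σ := ⟨(abs_lt.1 hzabs).1, (abs_lt.1 hzabs).2.le⟩
    rw [indicator_of_mem hmem]
    have hz1 : z ^ 2 < 1 := lt_of_lt_of_le hz (by nlinarith)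
    have hb : 0 ≤ z ^ 2 * (1 - σ ^ 2) / σ ^ 2 := by
      have : 0 ≤ 1 - σ ^ 2 := by nlinarith
      positivity
    have hab : z ^ 2 * (1 - σ ^ 2) / σ ^ 2 ≤ 1 - z ^ 2 := by
      rw [div_le_iff₀ hs2]
      nlinarith
    rw [← Complex.volume_preserving_equiv_pi.measure_preimage hm.nullMeasurableSet]
    have hset : (Complex.measurableEquivPi ⁻¹' {w : Fin 2 → ℝ | z ^ 2 + (w 0 ^ 2 + w 1 ^ 2) < 1 ∧
        z ^ 2 ≤ σ ^ 2 * (z ^ 2 + (w 0 ^ 2 + w 1 ^ 2))}) =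
        Metric.ball (0 : ℂ) (√(1 - z ^ 2)) \ Metric.ball (0 : ℂ) (√(z ^ 2 * (1 - σ ^ 2) / σ ^ 2)) := by
      ext w
      have hn : ‖w‖ ^ 2 = w.re ^ 2 + w.im ^ 2 := by
        rw [Complex.sq_norm, Complex.normSq_apply]
        ring
      rw [mem_sdiff, mem_ball_zero_iff, mem_ball_zero_iff, Real.lt_sqrt (norm_nonneg w),
        Real.lt_sqrt (norm_nonneg w), not_lt, hn, div_le_iff₀ hs2]
      simp only [mem_preimage, Complex.measurableEquivPi_apply, mem_ofPred_eq,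
        Matrix.cons_val_zero, Matrix.cons_val_one]
      constructor
      · rintro ⟨h2, h3⟩
        constructor
        · linarith
        · nlinarith
      · rintro ⟨h2, h3⟩
        constructor
        · linarith
        · nlinarith
    rw [hset, measure_sdiff (Metric.ball_subset_ball (Real.sqrt_le_sqrt hab))
      Metric.isOpen_ball.measurableSet.nullMeasurableSet (by
        rw [ofReal_ball _ hb]; exact ENNReal.ofReal_ne_top),
      ofReal_ball _ (by linarith), ofReal_ball _ hb, ← ENNReal.ofReal_sub _ (by positivity)]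
    congr 1
    field_simp
    ring
  · have hempty : {w : Fin 2 → ℝ | z ^ 2 + (w 0 ^ 2 + w 1 ^ 2) < 1 ∧
        z ^ 2 ≤ σ ^ 2 * (z ^ 2 + (w 0 ^ 2 + w 1 ^ 2))} = ∅ := by
      ext w
      simp only [mem_ofPred_eq, mem_empty_iff_false, iff_false, not_and, not_le]
      intro h2
      have h3 : σ ^ 2 ≤ z ^ 2 := not_lt.1 hz
      nlinarith
    rw [hempty, measure_empty]
    by_cases hmem : z ∈ Ioc (-σ) σ
    · rw [indicator_of_mem hmem]
      have h3 : z = σ := by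
        by_contra hne
        apply hz
        have h4 : z < σ := lt_of_le_of_ne hmem.2 hne
        nlinarith [hmem.1]
      rw [h3]
      have h5 : σ ^ 2 / σ ^ 2 = 1 := div_self hs2.ne'
      rw [h5]
      simp
    · rw [indicator_of_notMem hmem]

private lemma integral_slice {σ : ℝ} (h0 : 0 < σ) :
    ∫⁻ z, (Ioc (-σ) σ).indicator (fun z => ENNReal.ofReal (π * (1 - z ^ 2 / σ ^ 2))) z =
      ENNReal.ofReal (π * (4 / 3) * σ) := by
  rw [lintegral_indicator measurableSet_Ioc]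
  have hs2 : 0 < σ ^ 2 := by positivity
  have hcont : Continuous (fun z : ℝ => π * (1 - z ^ 2 / σ ^ 2)) := by fun_prop
  have hint : ∫ z in (-σ)..σ, π * (1 - z ^ 2 / σ ^ 2) = π * (4 / 3) * σ := by
    rw [intervalIntegral.integral_const_mul, intervalIntegral.integral_sub
      (intervalIntegrable_const) ((by fun_prop : Continuous fun z : ℝ => z ^ 2 / σ ^ 2).intervalIntegrable _ _),
      intervalIntegral.integral_div, integral_pow, intervalIntegral.integral_const]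
    simp only [smul_eq_mul]
    field_simp
    ring
  rw [← hint, intervalIntegral.integral_of_le (by linarith),
    ofReal_integral_eq_lintegral_ofReal]
  · exact (hcont.integrableOn_Icc).mono_set Ioc_subset_Icc_self
  · refine (ae_restrict_iff' measurableSet_Ioc).2 (Filter.Eventually.of_forall fun z hz => ?_)
    have h2 : z ^ 2 ≤ σ ^ 2 := by
      have h3 : |z| ≤ σ := abs_le.2 ⟨hz.1.le, hz.2⟩
      have h4 := sq_le_sq' (by linarith [abs_le.1 h3] : -σ ≤ z) (abs_le.1 h3).2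
      exact h4
    have h3 : z ^ 2 / σ ^ 2 ≤ 1 := (div_le_one hs2).2 h2
    have : 0 ≤ 1 - z ^ 2 / σ ^ 2 := by linarith
    change (0 : ℝ) ≤ π * (1 - z ^ 2 / σ ^ 2)
    positivity

/-- the standard slab in coordinates -/
private lemma slab_coord {σ : ℝ} (h0 : 0 < σ) (h1 : σ ≤ 1) :
    volume {u : V | (u 0 ^ 2 + (u 1 ^ 2 + u 2 ^ 2) < 1) ∧
      u 0 ^ 2 ≤ σ ^ 2 * (u 0 ^ 2 + (u 1 ^ 2 + u 2 ^ 2))} = ENNReal.ofReal (π * (4 / 3) * σ) := by
  let S : Set (ℝ × (Fin 2 → ℝ)) := {p | p.1 ^ 2 + (p.2 0 ^ 2 + p.2 1 ^ 2) < 1 ∧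
    p.1 ^ 2 ≤ σ ^ 2 * (p.1 ^ 2 + (p.2 0 ^ 2 + p.2 1 ^ 2))}
  have hS : MeasurableSet S := by
    have c1 : Continuous (fun p : ℝ × (Fin 2 → ℝ) => p.1 ^ 2 + (p.2 0 ^ 2 + p.2 1 ^ 2)) := by
      fun_prop
    have c2 : Continuous (fun p : ℝ × (Fin 2 → ℝ) =>
        σ ^ 2 * (p.1 ^ 2 + (p.2 0 ^ 2 + p.2 1 ^ 2))) := by fun_prop
    have c3 : Continuous (fun p : ℝ × (Fin 2 → ℝ) => p.1 ^ 2) := by fun_prop
    exact MeasurableSet.inter (isOpen_lt c1 continuous_const).measurableSet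
      (isClosed_le c3 c2).measurableSet
  have hΦ : MeasurePreserving ((MeasurableEquiv.piFinSuccAbove (fun _ : Fin 3 => ℝ) 0) ∘
      (@WithLp.ofLp 2 (Fin 3 → ℝ))) :=
    (volume_preserving_piFinSuccAbove (fun _ : Fin 3 => ℝ) 0).comp (PiLp.volume_preserving_ofLp _)
  have hpre : {u : V | (u 0 ^ 2 + (u 1 ^ 2 + u 2 ^ 2) < 1) ∧
      u 0 ^ 2 ≤ σ ^ 2 * (u 0 ^ 2 + (u 1 ^ 2 + u 2 ^ 2))} =
      ((MeasurableEquiv.piFinSuccAbove (fun _ : Fin 3 => ℝ) 0) ∘
        (@WithLp.ofLp 2 (Fin 3 → ℝ))) ⁻¹' S := by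
    ext u
    rfl
  rw [hpre, hΦ.measure_preimage hS.nullMeasurableSet, Measure.volume_eq_prod,
    Measure.prod_apply hS, ← integral_slice h0]
  refine lintegral_congr fun z => ?_
  exact slice h0 h1 z

private lemma slab_pos {σ : ℝ} (h0 : 0 < σ) (h1 : σ ≤ 1) {x : V} (hx : ‖x‖ = 1) :
    volume {u : V | u ∈ Metric.ball (0 : V) 1 ∧ (inner ℝ x u) ^ 2 ≤ σ ^ 2 * ‖u‖ ^ 2} =
      ENNReal.ofReal (π * (4 / 3) * σ) := by
  let e : V := EuclideanSpace.single 0 1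
  have he : ‖e‖ = 1 := by simp [e]
  obtain ⟨T, hT⟩ : ∃ T : V ≃ₗᵢ[ℝ] V, T x = e :=
    ⟨(ℝ ∙ (x - e))ᗮ.reflection, Submodule.reflection_sub (hx.trans he.symm)⟩
  have hm : MeasurableSet {u : V | (u 0 ^ 2 + (u 1 ^ 2 + u 2 ^ 2) < 1) ∧
      u 0 ^ 2 ≤ σ ^ 2 * (u 0 ^ 2 + (u 1 ^ 2 + u 2 ^ 2))} := by
    have c1 : Continuous (fun u : V => u 0 ^ 2 + (u 1 ^ 2 + u 2 ^ 2)) := by fun_prop
    have c2 : Continuous (fun u : V => σ ^ 2 * (u 0 ^ 2 + (u 1 ^ 2 + u 2 ^ 2))) := by fun_prop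
    have c3 : Continuous (fun u : V => u 0 ^ 2) := by fun_prop
    exact MeasurableSet.inter (isOpen_lt c1 continuous_const).measurableSet
      (isClosed_le c3 c2).measurableSet
  rw [← slab_coord h0 h1, ← T.measurePreserving.measure_preimage hm.nullMeasurableSet]
  congr 1
  ext u
  have hn : ‖u‖ ^ 2 = (T u) 0 ^ 2 + ((T u) 1 ^ 2 + (T u) 2 ^ 2) := by
    rw [← T.norm_map u, ← real_inner_self_eq_norm_sq, inner_eq]
    ring
  have hi : inner ℝ x u = (T u) 0 := by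
    rw [← T.inner_map_map x u, hT, inner_eq]
    simp [e]
  simp only [mem_ofPred_eq, mem_preimage, mem_ball_zero_iff]
  rw [hi, hn, ← hn]
  constructor
  · rintro ⟨h2, h3⟩
    exact ⟨by nlinarith [norm_nonneg u], h3⟩
  · rintro ⟨h2, h3⟩
    exact ⟨by nlinarith [norm_nonneg u], h3⟩

theorem slab_volume {σ : ℝ} (h0 : 0 ≤ σ) (h1 : σ ≤ 1) {x : V} (hx : ‖x‖ = 1) :
    volume.real {u : V | u ∈ Metric.ball (0 : V) 1 ∧ (inner ℝ x u) ^ 2 ≤ σ ^ 2 * ‖u‖ ^ 2} =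
      σ * volume.real (Metric.ball (0 : V) 1) := by
  have hpos : ∀ τ : ℝ, 0 < τ → τ ≤ 1 → volume.real {u : V | u ∈ Metric.ball (0 : V) 1 ∧
      (inner ℝ x u) ^ 2 ≤ τ ^ 2 * ‖u‖ ^ 2} = π * (4 / 3) * τ := by
    intro τ h2 h3
    rw [measureReal_def, slab_pos h2 h3 hx, ENNReal.toReal_ofReal (by positivity)]
  have hball : volume.real (Metric.ball (0 : V) 1) = π * (4 / 3) := by
    have h2 := hpos 1 one_pos le_rfl
    rw [mul_one] at h2
    rw [← h2]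
    congr 1
    ext u
    simp only [mem_ofPred_eq]
    constructor
    · intro h3
      refine ⟨h3, ?_⟩
      have h4 := abs_real_inner_le_norm x u
      rw [hx, one_mul] at h4
      rw [one_pow, one_mul]
      exact sq_le_sq' (by linarith [abs_le.1 h4]) (abs_le.1 h4).2
    · exact fun h3 => h3.1
  rcases h0.eq_or_lt with h2 | h2
  · subst h2
    rw [zero_mul]
    refine le_antisymm ?_ measureReal_nonneg
    refine le_of_forall_pos_le_add fun ε hε => ?_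
    rw [zero_add]
    obtain ⟨τ, hτ0, hτ1, hτε⟩ : ∃ τ : ℝ, 0 < τ ∧ τ ≤ 1 ∧ π * (4 / 3) * τ ≤ ε := by
      refine ⟨min 1 (ε / (π * (4 / 3))), lt_min one_pos (by positivity), min_le_left _ _, ?_⟩
      calc π * (4 / 3) * min 1 (ε / (π * (4 / 3))) ≤ π * (4 / 3) * (ε / (π * (4 / 3))) :=
            mul_le_mul_of_nonneg_left (min_le_right _ _) (by positivity)
        _ = ε := by field_simp
    refine le_trans ?_ hτε
    rw [← hpos τ hτ0 hτ1]
    refine measureReal_mono ?_ ?_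
    · rintro u ⟨h3, h4⟩
      refine ⟨h3, h4.trans ?_⟩
      have : 0 ≤ τ ^ 2 * ‖u‖ ^ 2 := by positivity
      simpa using this
    · rw [slab_pos hτ0 hτ1 hx]
      exact ENNReal.ofReal_ne_top
  · rw [hpos σ h2 h1, hball]
    ring

end Tam
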