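import Pool.Agent.Tam.Arch

/-!
# The Tammes problem (MP_97a6ed_co): averaging over all directions
-/

namespace Tam

open Real MeasureTheory

/-- complement of a double cone -/
def slab (σ : ℝ) (x : V) : Set V := {u : V | (inner ℝ x u) ^ 2 ≤ σ ^ 2 * ‖u‖ ^ 2}

lemma measurable_slab (σ : ℝ) (x : V) : MeasurableSet (slab σ x) := by
  have h : IsClosed (slab σ x) := by
    unfold slab
    exact isClosed_le (by fun_prop) (by fun_prop)
  exact h.measurableSet

lemma int_slab {σ : ℝ} (h0 : 0 ≤ σ) (h1 : σ ≤ 1) {x : V} (hx : ‖x‖ = 1) :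
    ∫ u in Metric.ball (0 : V) 1, (slab σ x).indicator (fun _ => (1 : ℝ)) u =
      σ * volume.real (Metric.ball (0 : V) 1) := by
  rw [setIntegral_indicator (measurable_slab σ x), setIntegral_const, smul_eq_mul, mul_one,
    ← slab_volume h0 h1 hx]
  rfl

lemma integrable_slab (σ : ℝ) (x : V) :
    Integrable ((slab σ x).indicator (fun _ => (1 : ℝ)))
      (volume.restrict (Metric.ball (0 : V) 1)) := by
  refine Integrable.indicator ?_ (measurable_slab σ x)
  exact integrableOn_const measure_ball_lt_top.ne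

/-- averaging over all directions: a direction with few points near its great circle and no point
on it -/
theorem exists_dir (X : Finset V) (h1 : ∀ x ∈ X, ‖x‖ = 1) {σ : ℝ} (h0 : 0 ≤ σ) (hσ : σ ≤ 1) :
    ∃ f : V, ‖f‖ = 1 ∧ (∀ x ∈ X, inner ℝ x f ≠ 0) ∧
      ((X.filter fun x => (inner ℝ x f) ^ 2 ≤ σ ^ 2).card : ℝ) ≤ X.card * σ := by
  classical
  set B : Set V := Metric.ball (0 : V) 1 with hB
  have hBpos : 0 < volume B := Metric.measure_ball_pos _ _ one_pos
  have hBr : 0 < volume.real B := ENNReal.toReal_pos hBpos.ne' measure_ball_lt_top.ne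
  set μ : Measure V := volume.restrict B with hμ
  have hfin : IsFiniteMeasure μ := ⟨by
    rw [hμ, Measure.restrict_apply_univ]; exact measure_ball_lt_top⟩
  have hμ0 : μ ≠ 0 := by
    intro h
    have := congrArg (fun m : Measure V => m Set.univ) h
    simp only [hμ, Measure.restrict_apply_univ, Measure.coe_zero, Pi.zero_apply] at this
    exact hBpos.ne' this
  set g : V → ℝ := fun u => ∑ x ∈ X, (slab σ x).indicator (fun _ => (1 : ℝ)) u with hg
  have hgi : Integrable g μ := integrable_finsetSum _ fun x _ => integrable_slab σ x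
  set Nn : Set V := Bᶜ ∪ ((⋃ x ∈ X, {u : V | inner ℝ x u = 0}) ∪ {0}) with hNn
  have hhyp : ∀ x ∈ X, volume {u : V | inner ℝ x u = 0} = 0 := by
    intro x hx
    have h2 : {u : V | inner ℝ x u = 0} = ((ℝ ∙ x)ᗮ : Submodule ℝ V) := by
      ext u
      rw [SetLike.mem_coe, Submodule.mem_orthogonal_singleton_iff_inner_right]
      rfl
    rw [h2]
    refine Measure.addHaar_submodule _ _ ?_
    intro h3
    have h4 : x ∈ (ℝ ∙ x)ᗮ := by rw [h3]; exact Submodule.mem_top
    rw [Submodule.mem_orthogonal_singleton_iff_inner_right, real_inner_self_eq_norm_sq,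
      h1 x hx] at h4
    norm_num at h4
  have hN0 : μ Nn = 0 := by
    rw [hNn, measure_union_null_iff, measure_union_null_iff]
    refine ⟨?_, ?_, ?_⟩
    · rw [hμ, Measure.restrict_apply (Metric.isOpen_ball.measurableSet.compl)]
      simp [hB]
    · have hco : μ (⋃ x ∈ (X : Set V), {u : V | inner ℝ x u = 0}) = 0 := by
        rw [measure_biUnion_null_iff X.countable_toSet]
        intro x hx
        exact le_antisymm ((Measure.restrict_apply_le _ _).trans (hhyp x hx).le) bot_le
      simpa only [Finset.mem_coe] using hco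
    · exact le_antisymm ((Measure.restrict_apply_le _ _).trans (by simp)) bot_le
  obtain ⟨u, huN, hu⟩ := exists_notMem_null_le_average hμ0 hgi hN0
  have hu0 : u ≠ 0 := fun h => huN (by rw [hNn]; right; right; exact h)
  have hux : ∀ x ∈ X, inner ℝ x u ≠ 0 := by
    intro x hx h
    apply huN
    rw [hNn]
    right; left
    rw [Set.mem_iUnion₂]
    exact ⟨x, hx, h⟩
  have havg : ⨍ a, g a ∂μ = X.card * σ := by
    rw [average_eq, smul_eq_mul]
    have h3 : ∫ a, g a ∂μ = X.card * (σ * volume.real B) := by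
      rw [hg, integral_finsetSum _ fun x _ => integrable_slab σ x]
      rw [Finset.sum_congr rfl fun x hx => int_slab h0 hσ (h1 x hx)]
      rw [Finset.sum_const, nsmul_eq_mul]
    rw [h3]
    have h4 : μ.real Set.univ = volume.real B := by
      rw [hμ, measureReal_restrict_apply_univ]
    rw [h4]
    field_simp
  rw [havg] at hu
  have hn : 0 < ‖u‖ := norm_pos_iff.2 hu0
  refine ⟨‖u‖⁻¹ • u, ?_, ?_, ?_⟩
  · rw [norm_smul, norm_inv, norm_norm, inv_mul_cancel₀ hn.ne']
  · intro x hx
    rw [inner_smul_right]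
    exact mul_ne_zero (inv_ne_zero hn.ne') (hux x hx)
  · refine le_trans (le_of_eq ?_) hu
    rw [hg, Finset.card_filter, Nat.cast_sum]
    refine Finset.sum_congr rfl fun x hx => ?_
    have hiff : (inner ℝ x (‖u‖⁻¹ • u)) ^ 2 ≤ σ ^ 2 ↔ u ∈ slab σ x := by
      rw [inner_smul_right, mul_pow, inv_pow, slab, Set.mem_ofPred_eq]
      rw [inv_mul_le_iff₀ (by positivity), mul_comm (‖u‖ ^ 2)]
    by_cases h : u ∈ slab σ x
    · rw [if_pos (hiff.2 h), Set.indicator_of_mem h, Nat.cast_one]
    · rw [if_neg (fun h' => h (hiff.1 h')), Set.indicator_of_notMem h, Nat.cast_zero]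

theorem cap_unique {x y f : V} {C : ℝ} (hx : ‖x‖ = 1) (hy : ‖y‖ = 1) (hf : ‖f‖ = 1) (hC : 0 ≤ C)
    (h1 : C < inner ℝ x f) (h2 : C < inner ℝ y f) : 2 * C ^ 2 - 1 < inner ℝ x y := by
  set p : ℝ := inner ℝ x f with hp
  set q : ℝ := inner ℝ y f with hq
  have hff : inner ℝ f f = (1 : ℝ) := by rw [real_inner_self_eq_norm_sq, hf]; norm_num
  have hxx : inner ℝ x x = (1 : ℝ) := by rw [real_inner_self_eq_norm_sq, hx]; norm_num
  have hyy : inner ℝ y y = (1 : ℝ) := by rw [real_inner_self_eq_norm_sq, hy]; norm_num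
  have hfx : inner ℝ f x = p := by rw [real_inner_comm]
  have hfy : inner ℝ f y = q := by rw [real_inner_comm]
  have e1 : inner ℝ (x - p • f) (y - q • f) = inner ℝ x y - p * q := by
    rw [inner_sub_left, inner_sub_right, inner_sub_right, inner_smul_left, inner_smul_right,
      inner_smul_left, inner_smul_right, hff, hfy, ← hp]
    simp
    ring
  have e2 : ‖x - p • f‖ ^ 2 = 1 - p ^ 2 := by
    rw [← real_inner_self_eq_norm_sq, inner_sub_left, inner_sub_right, inner_sub_right,
      inner_smul_left, inner_smul_right, inner_smul_left, inner_smul_right, hff, hxx, hfx, ← hp]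
    simp
    ring
  have e3 : ‖y - q • f‖ ^ 2 = 1 - q ^ 2 := by
    rw [← real_inner_self_eq_norm_sq, inner_sub_left, inner_sub_right, inner_sub_right,
      inner_smul_left, inner_smul_right, inner_smul_left, inner_smul_right, hff, hyy, hfy, ← hq]
    simp
    ring
  have hp1 : p ≤ 1 := by
    have := real_inner_le_norm x f
    rw [hx, hf] at this; linarith
  have hq1 : q ≤ 1 := by
    have := real_inner_le_norm y f
    rw [hy, hf] at this; linarith
  have hC1 : C < 1 := lt_of_lt_of_le h1 hp1
  have h3 := abs_real_inner_le_norm (x - p • f) (y - q • f)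
  rw [e1] at h3
  have h4 : (‖x - p • f‖ * ‖y - q • f‖) ^ 2 < (1 - C ^ 2) ^ 2 := by
    rw [mul_pow, e2, e3]
    have a1 : 1 - p ^ 2 < 1 - C ^ 2 := by nlinarith
    have a2 : 1 - q ^ 2 < 1 - C ^ 2 := by nlinarith
    have a3 : 0 ≤ 1 - p ^ 2 := by nlinarith
    have a4 : 0 ≤ 1 - q ^ 2 := by nlinarith
    nlinarith
  have h5 : ‖x - p • f‖ * ‖y - q • f‖ < 1 - C ^ 2 := lt_of_pow_lt_pow_left₀ 2 (by nlinarith) h4
  have h6 := (abs_le.1 h3).1
  nlinarith

/-- the double caps `(x, u) ^ 2 > C ^ 2 ‖u‖ ^ 2` cover every direction at most twice -/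
theorem packing (X : Finset V) (h1 : ∀ x ∈ X, ‖x‖ = 1) {C : ℝ} (h0 : 0 ≤ C) (hC : C ≤ 1)
    (h2 : ∀ x ∈ X, ∀ y ∈ X, x ≠ y → inner ℝ x y ≤ 2 * C ^ 2 - 1) :
    (X.card : ℝ) * (1 - C) ≤ 2 := by
  classical
  set B : Set V := Metric.ball (0 : V) 1 with hB
  have hBpos : 0 < volume B := Metric.measure_ball_pos _ _ one_pos
  have hBr : 0 < volume.real B := ENNReal.toReal_pos hBpos.ne' measure_ball_lt_top.ne
  have hone : Integrable (fun _ : V => (1 : ℝ)) (volume.restrict B) :=
    integrableOn_const measure_ball_lt_top.ne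
  have htwo : Integrable (fun _ : V => (2 : ℝ)) (volume.restrict B) :=
    integrableOn_const measure_ball_lt_top.ne
  have hpt : ∀ u : V, ∑ x ∈ X, (1 - (slab C x).indicator (fun _ => (1 : ℝ)) u) ≤ 2 := by
    intro u
    have hterm : ∀ x ∈ X, (1 - (slab C x).indicator (fun _ => (1 : ℝ)) u) =
        if u ∈ slab C x then 0 else 1 := by
      intro x _
      by_cases h : u ∈ slab C x
      · rw [if_pos h, Set.indicator_of_mem h]; norm_num
      · rw [if_neg h, Set.indicator_of_notMem h]; norm_num
    rw [Finset.sum_congr rfl hterm]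
    have hsum : ∑ x ∈ X, (if u ∈ slab C x then (0:ℝ) else 1) =
        ((X.filter fun x => u ∉ slab C x).card : ℝ) := by
      rw [Finset.card_filter, Nat.cast_sum]
      refine Finset.sum_congr rfl fun x _ => ?_
      by_cases h : u ∈ slab C x
      · rw [if_pos h, if_neg (not_not.2 h), Nat.cast_zero]
      · rw [if_neg h, if_pos h, Nat.cast_one]
    rw [hsum]
    have hcard : (X.filter fun x => u ∉ slab C x).card ≤ 2 := by
      by_cases hu0 : u = 0
      · have : (X.filter fun x => u ∉ slab C x) = ∅ := by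
          rw [Finset.filter_eq_empty_iff]
          intro x _ h
          apply h
          rw [hu0, slab, Set.mem_ofPred_eq, inner_zero_right, norm_zero]
          norm_num
        rw [this]; simp
      · have hn : 0 < ‖u‖ := norm_pos_iff.2 hu0
        set f : V := ‖u‖⁻¹ • u with hf
        have hf1 : ‖f‖ = 1 := by
          rw [hf, norm_smul, norm_inv, norm_norm, inv_mul_cancel₀ hn.ne']
        have hsub : (X.filter fun x => u ∉ slab C x) ⊆
            (X.filter fun x => C < inner ℝ x f) ∪ (X.filter fun x => C < inner ℝ x (-f)) := by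
          intro x hx
          rw [Finset.mem_filter] at hx
          rw [Finset.mem_union, Finset.mem_filter, Finset.mem_filter]
          have h3 : C ^ 2 < (inner ℝ x f) ^ 2 := by
            by_contra hc
            apply hx.2
            rw [slab, Set.mem_ofPred_eq]
            rw [hf, inner_smul_right, mul_pow, inv_pow, not_lt,
              inv_mul_le_iff₀ (by positivity), mul_comm (‖u‖ ^ 2)] at hc
            exact hc
          have h4 : C < |inner ℝ x f| := by
            rw [← sq_abs (inner ℝ x f)] at h3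
            exact lt_of_pow_lt_pow_left₀ 2 (abs_nonneg _) h3
          rcases lt_abs.1 h4 with h | h
          · exact Or.inl ⟨hx.1, h⟩
          · right
            refine ⟨hx.1, ?_⟩
            rw [inner_neg_right]; exact h
        have hle1 : ∀ e : V, ‖e‖ = 1 → (X.filter fun x => C < inner ℝ x e).card ≤ 1 := by
          intro e he
          rw [Finset.card_le_one]
          intro a ha b hb
          rw [Finset.mem_filter] at ha hb
          by_contra hne
          have := cap_unique (h1 a ha.1) (h1 b hb.1) he h0 ha.2 hb.2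
          linarith [h2 a ha.1 b hb.1 hne]
        calc (X.filter fun x => u ∉ slab C x).card ≤ _ := Finset.card_le_card hsub
          _ ≤ _ := Finset.card_union_le _ _
          _ ≤ 1 + 1 := add_le_add (hle1 f hf1) (hle1 (-f) (by rw [norm_neg, hf1]))
    exact_mod_cast hcard
  have hsubi : ∀ x ∈ X, Integrable (fun u => 1 - (slab C x).indicator (fun _ => (1 : ℝ)) u)
      (volume.restrict B) := fun x _ => hone.sub (integrable_slab C x)
  have hint : ∫ u in B, ∑ x ∈ X, (1 - (slab C x).indicator (fun _ => (1 : ℝ)) u) =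
      X.card * ((1 - C) * volume.real B) := by
    rw [integral_finsetSum _ hsubi]
    have h3 : ∀ x ∈ X, ∫ u in B, (1 - (slab C x).indicator (fun _ => (1 : ℝ)) u) =
        (1 - C) * volume.real B := by
      intro x hx
      rw [integral_sub hone (integrable_slab C x), int_slab h0 hC (h1 x hx), setIntegral_const,
        smul_eq_mul, mul_one]
      ring
    rw [Finset.sum_congr rfl h3, Finset.sum_const, nsmul_eq_mul]
  have hle : ∫ u in B, ∑ x ∈ X, (1 - (slab C x).indicator (fun _ => (1 : ℝ)) u) ≤
      ∫ _ in B, (2 : ℝ) :=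
    integral_mono (integrable_finsetSum _ hsubi) htwo hpt
  rw [hint, setIntegral_const, smul_eq_mul] at hle
  have : (X.card * (1 - C)) * volume.real B ≤ 2 * volume.real B := by linarith
  exact le_of_mul_le_mul_right this hBr

end Tam
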