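import Pool.Agent.Tam.Gen

/-!
# The Tammes problem (MP_97a6ed_co): cutting along a half great circle and stretching
-/

namespace Tam

open Real Filter Topology

/-- the points near the half great circle `x 1 = 0, x 0 ≥ 0` -/
def near (s : ℝ) (x : V) : Prop := |x 1| ≤ s / 2 ∧ -(s / 2) ≤ x 0

/-- distance to the axis -/
noncomputable def rho (x : V) : ℝ := √(x 0 ^ 2 + x 1 ^ 2)

/-- longitude -/
noncomputable def phi (x : V) : ℝ := Complex.arg ⟨-x 0, -x 1⟩ + π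

lemma rho_cos (x : V) : rho x * cos (phi x) = x 0 := by
  have h := Complex.norm_mul_cos_arg ⟨-x 0, -x 1⟩
  have hn : ‖(⟨-x 0, -x 1⟩ : ℂ)‖ = rho x := by
    rw [Complex.norm_def, Complex.normSq_apply, rho]
    congr 1; ring
  rw [hn] at h
  rw [phi, Real.cos_add_pi, mul_neg, h]
  simp

lemma rho_sin (x : V) : rho x * sin (phi x) = x 1 := by
  have h := Complex.norm_mul_sin_arg ⟨-x 0, -x 1⟩
  have hn : ‖(⟨-x 0, -x 1⟩ : ℂ)‖ = rho x := by
    rw [Complex.norm_def, Complex.normSq_apply, rho]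
    congr 1; ring
  rw [hn] at h
  rw [phi, Real.sin_add_pi, mul_neg, h]
  simp

lemma phi_pos (x : V) : 0 < phi x := by
  have := Complex.neg_pi_lt_arg ⟨-x 0, -x 1⟩
  rw [phi]; linarith

lemma phi_lt {s : ℝ} (hs : 0 < s) {x : V} (hx : ¬ near s x) : phi x < 2 * π := by
  have h1 := Complex.arg_le_pi ⟨-x 0, -x 1⟩
  have h2 : Complex.arg ⟨-x 0, -x 1⟩ ≠ π := by
    intro h
    rw [Complex.arg_eq_pi_iff] at h
    simp only [Left.neg_neg_iff, neg_eq_zero] at h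
    apply hx
    refine ⟨?_, by linarith [h.1]⟩
    rw [h.2, abs_zero]; linarith
  have := lt_of_le_of_ne h1 h2
  rw [phi]; linarith

lemma rho_pos {s : ℝ} (hs : 0 < s) {x : V} (hx : ¬ near s x) : 0 < rho x := by
  rw [rho, Real.sqrt_pos]
  by_contra hcon
  apply hx
  have h0 : x 0 ^ 2 = 0 := by nlinarith [sq_nonneg (x 0), sq_nonneg (x 1)]
  have h1 : x 1 ^ 2 = 0 := by nlinarith [sq_nonneg (x 0), sq_nonneg (x 1)]
  have h0' : x 0 = 0 := pow_eq_zero_iff (two_ne_zero) |>.mp h0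
  have h1' : x 1 = 0 := pow_eq_zero_iff (two_ne_zero) |>.mp h1
  refine ⟨?_, by rw [h0']; linarith⟩
  rw [h1', abs_zero]; linarith

lemma rho_sq (x : V) : rho x ^ 2 = x 0 ^ 2 + x 1 ^ 2 := by
  rw [rho, Real.sq_sqrt (by positivity)]

lemma det_eq (x y : V) : rho x * rho y * sin (phi y - phi x) = x 0 * y 1 - x 1 * y 0 := by
  rw [Real.sin_sub, ← rho_cos x, ← rho_cos y, ← rho_sin x, ← rho_sin y]; ring

lemma dist_le {x y : V} (hx : ‖x‖ = 1) (hy : ‖y‖ = 1) {c s : ℝ} (hs2 : s ^ 2 = 2 - 2 * c)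
    (hin : c ≤ inner ℝ x y) : (x 0 - y 0) ^ 2 + (x 1 - y 1) ^ 2 ≤ s ^ 2 := by
  rw [norm_one_iff] at hx hy
  rw [inner_eq] at hin
  nlinarith [sq_nonneg (x 2 - y 2)]

/-- two points at distance at most `s` are not separated by the cut -/
lemma contact {c s : ℝ} (hs : 0 < s) (hs2 : s ^ 2 = 2 - 2 * c) {x y : V} (hx : ‖x‖ = 1) (hy : ‖y‖ = 1)
    (nx : ¬ near s x) (ny : ¬ near s y) (hin : c ≤ inner ℝ x y) (hdet : x 0 * y 1 - x 1 * y 0 ≠ 0)
    (hle : phi x ≤ phi y) : 0 < phi y - phi x ∧ phi y - phi x < π := by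
  have hd := det_eq x y
  have rx := rho_pos hs nx
  have ry := rho_pos hs ny
  have h0 : phi y - phi x ≠ 0 := by
    intro h; rw [h, Real.sin_zero, mul_zero] at hd; exact hdet hd.symm
  have hpi : phi y - phi x ≠ π := by
    intro h; rw [h, Real.sin_pi, mul_zero] at hd; exact hdet hd.symm
  have hpos : 0 < phi y - phi x := lt_of_le_of_ne (by linarith) (Ne.symm h0)
  refine ⟨hpos, ?_⟩
  by_contra hcon
  have hgt : π < phi y - phi x := lt_of_le_of_ne (not_lt.mp hcon) (Ne.symm hpi)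
  have hy2 := phi_lt hs ny
  have hx0 := phi_pos x
  have s1 : 0 < sin (phi x) := Real.sin_pos_of_pos_of_lt_pi hx0 (by linarith)
  have s2 : sin (phi y) < 0 := by
    have : 0 < sin (phi y - π) := Real.sin_pos_of_pos_of_lt_pi (by linarith) (by linarith)
    rw [Real.sin_sub_pi] at this; linarith
  have s3 : sin (phi y - phi x) < 0 := by
    have : 0 < sin (phi y - phi x - π) := Real.sin_pos_of_pos_of_lt_pi (by linarith) (by linarith)
    rw [Real.sin_sub_pi] at this; linarith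
  have hp : 0 < x 1 := by rw [← rho_sin x]; positivity
  have hq : y 1 < 0 := by rw [← rho_sin y]; exact mul_neg_of_pos_of_neg ry s2
  have hdn : x 0 * y 1 - x 1 * y 0 < 0 := by
    rw [← hd]; exact mul_neg_of_pos_of_neg (by positivity) s3
  have hD := dist_le hx hy hs2 hin
  have hD1 : x 1 - y 1 ≤ s := abs_le_of_sq_le_sq' (by nlinarith [sq_nonneg (x 0 - y 0)]) hs.le |>.2
  have hD0 := abs_le_of_sq_le_sq' (show (x 0 - y 0) ^ 2 ≤ s ^ 2 by nlinarith [sq_nonneg (x 1 - y 1)]) hs.le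
  by_cases hpq : x 1 ≤ -y 1
  · apply nx
    refine ⟨by rw [abs_of_pos hp]; linarith, ?_⟩
    by_contra hc
    push Not at hc
    -- (p + q) x 0 = (q x 0 + p y 0) + p (x 0 - y 0)
    have h1 : (x 1 + -y 1) * x 0 > x 1 * (x 0 - y 0) := by nlinarith
    have h2 : x 1 * (x 0 - y 0) ≥ -(x 1 * s) := by nlinarith [hD0.1]
    nlinarith
  · push Not at hpq
    apply ny
    refine ⟨by rw [abs_of_neg hq]; linarith, ?_⟩
    by_contra hc
    push Not at hc
    have h1 : (x 1 + -y 1) * y 0 > (-y 1) * (y 0 - x 0) := by nlinarith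
    have h2 : (-y 1) * (y 0 - x 0) ≥ -((-y 1) * s) := by nlinarith [hD0.2]
    nlinarith

/-- the stretched point -/
noncomputable def st (ε : ℝ) (x : V) : V :=
  !₂[rho x * cos ((1 + ε) * phi x), rho x * sin ((1 + ε) * phi x), x 2]

lemma norm_st {ε : ℝ} {x : V} (hx : ‖x‖ = 1) : ‖st ε x‖ = 1 := by
  rw [norm_one_iff] at hx ⊢
  show (rho x * cos ((1 + ε) * phi x)) ^ 2 + (rho x * sin ((1 + ε) * phi x)) ^ 2 + x 2 ^ 2 = 1
  linear_combination rho x ^ 2 * Real.sin_sq_add_cos_sq ((1 + ε) * phi x) + rho_sq x + hx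

lemma inner_st (ε : ℝ) (x y : V) : inner ℝ (st ε x) (st ε y) =
    rho x * rho y * cos ((1 + ε) * (phi y - phi x)) + x 2 * y 2 := by
  rw [inner_eq]
  show rho x * cos ((1 + ε) * phi x) * (rho y * cos ((1 + ε) * phi y)) +
    rho x * sin ((1 + ε) * phi x) * (rho y * sin ((1 + ε) * phi y)) + x 2 * y 2 = _
  rw [mul_sub, Real.cos_sub]; ring

lemma inner_st_zero (x y : V) : inner ℝ (st 0 x) (st 0 y) = inner ℝ x y := by
  rw [inner_st, inner_eq, add_zero, one_mul, Real.cos_sub, ← rho_cos x, ← rho_cos y, ← rho_sin x, ← rho_sin y]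
  ring

lemma ev_lt {c s : ℝ} (hs : 0 < s) (hs2 : s ^ 2 = 2 - 2 * c) {x y : V} (hx : ‖x‖ = 1) (hy : ‖y‖ = 1)
    (nx : ¬ near s x) (ny : ¬ near s y) (hin : inner ℝ x y ≤ c)
    (hdet : inner ℝ x y = c → x 0 * y 1 - x 1 * y 0 ≠ 0) (hle : phi x ≤ phi y) :
    ∀ᶠ ε in 𝓝[>] (0 : ℝ), inner ℝ (st ε x) (st ε y) < c := by
  rcases lt_or_eq_of_le hin with h | h
  · have hcont : Continuous fun ε : ℝ => inner ℝ (st ε x) (st ε y) := by
      simp_rw [inner_st]
      fun_prop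
    have h0 : (fun ε : ℝ => inner ℝ (st ε x) (st ε y)) 0 < c := by
      show inner ℝ (st 0 x) (st 0 y) < c
      rw [inner_st_zero]; exact h
    exact (hcont.continuousAt.eventually_lt continuousAt_const h0).filter_mono nhdsWithin_le_nhds
  · obtain ⟨h1, h2⟩ := contact hs hs2 hx hy nx ny h.ge (hdet h) hle
    have hcont : Continuous fun ε : ℝ => (1 + ε) * (phi y - phi x) := by fun_prop
    have h3 : ∀ᶠ ε in 𝓝 (0 : ℝ), (1 + ε) * (phi y - phi x) < π :=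
      hcont.continuousAt.eventually_lt continuousAt_const (by simpa using h2)
    filter_upwards [self_mem_nhdsWithin, h3.filter_mono nhdsWithin_le_nhds] with ε hε hε2
    have hε' : 0 < ε := hε
    rw [← h, ← inner_st_zero x y, inner_st, inner_st, add_zero, one_mul]
    have hc : cos ((1 + ε) * (phi y - phi x)) < cos (phi y - phi x) := by
      apply Real.cos_lt_cos_of_nonneg_of_le_pi h1.le hε2.le
      nlinarith
    have rx := rho_pos hs nx
    have ry := rho_pos hs ny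
    have := mul_lt_mul_of_pos_left hc (mul_pos rx ry)
    linarith

lemma exists_lt_bound {ι : Type*} (S : Finset ι) (f : ι → ℝ) (c : ℝ) (h : ∀ i ∈ S, f i < c) :
    ∃ c' < c, ∀ i ∈ S, f i ≤ c' := by
  by_cases hS : S.Nonempty
  · exact ⟨S.sup' hS f, (Finset.sup'_lt_iff hS).mpr h, fun i hi => Finset.le_sup' f hi⟩
  · rw [Finset.not_nonempty_iff_eq_empty] at hS
    exact ⟨c - 1, by linarith, by simp [hS]⟩

theorem improve {X : Finset V} {c s : ℝ} (h1 : ∀ x ∈ X, ‖x‖ = 1)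
    (h2 : ∀ x ∈ X, ∀ y ∈ X, x ≠ y → inner ℝ x y ≤ c)
    (hgen : ∀ x ∈ X, ∀ y ∈ X, x ≠ y → x ≠ -y → x 0 * y 1 - x 1 * y 0 ≠ 0)
    (hs : 0 < s) (hs2 : s ^ 2 = 2 - 2 * c) (hc : -1 < c) (hn : ∀ x ∈ X, ¬ near s x) :
    ∃ c' < c, Conf X.card c' := by
  classical
  have hc1 : c < 1 := by nlinarith
  have hne : ∀ x ∈ X, ∀ y ∈ X, inner ℝ x y = c → x ≠ -y := by
    intro x hx y hy h he
    rw [he, inner_neg_left, real_inner_self_eq_norm_sq, h1 y hy] at h
    linarith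
  have hev : ∀ᶠ ε in 𝓝[>] (0 : ℝ), ∀ p ∈ X.offDiag, inner ℝ (st ε p.1) (st ε p.2) < c := by
    rw [Filter.eventually_all_finset]
    intro p hp
    rw [Finset.mem_offDiag] at hp
    obtain ⟨hx, hy, hxy⟩ := hp
    rcases le_total (phi p.1) (phi p.2) with hle | hle
    · exact ev_lt hs hs2 (h1 _ hx) (h1 _ hy) (hn _ hx) (hn _ hy) (h2 _ hx _ hy hxy)
        (fun h => hgen _ hx _ hy hxy (hne _ hx _ hy h)) hle
    · have := ev_lt hs hs2 (h1 _ hy) (h1 _ hx) (hn _ hy) (hn _ hx) (h2 _ hy _ hx hxy.symm)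
        (fun h => hgen _ hy _ hx hxy.symm (hne _ hy _ hx h)) hle
      filter_upwards [this] with ε hε
      rw [real_inner_comm]; exact hε
  obtain ⟨ε, hε⟩ := hev.exists
  obtain ⟨c', hc', hb⟩ := exists_lt_bound X.offDiag (fun p => inner ℝ (st ε p.1) (st ε p.2)) c hε
  have hinj : Set.InjOn (st ε) X := by
    intro x hx y hy hxy
    by_contra hne
    have := hb (x, y) (Finset.mem_offDiag.mpr ⟨hx, hy, hne⟩)
    simp only at this
    rw [hxy, real_inner_self_eq_norm_sq, norm_st (h1 y hy)] at this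
    linarith
  refine ⟨c', hc', X.image (st ε), Finset.card_image_of_injOn hinj, ?_, ?_⟩
  · intro x hx
    obtain ⟨x', hx', rfl⟩ := Finset.mem_image.mp hx
    exact norm_st (h1 x' hx')
  · intro x hx y hy hxy
    obtain ⟨x', hx', rfl⟩ := Finset.mem_image.mp hx
    obtain ⟨y', hy', rfl⟩ := Finset.mem_image.mp hy
    exact hb (x', y') (Finset.mem_offDiag.mpr ⟨hx', hy', fun h => hxy (congrArg (st ε) h)⟩)


/-! ## Counting the removed points -/

lemma close_aux {σ σ' l l' t t' s : ℝ} (h : σ ^ 2 + l ^ 2 + t ^ 2 = 1) (h' : σ' ^ 2 + l' ^ 2 + t' ^ 2 = 1)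
    (hσ : |σ| ≤ |l|) (hσ' : |σ'| ≤ |l'|) (hl : 0 ≤ l ↔ 0 ≤ l') (ht : |t| ≤ s / 2) (ht' : |t'| ≤ s / 2)
    (htt : 0 ≤ t ↔ 0 ≤ t') (hfl : ⌊2 * σ / s⌋ = ⌊2 * σ' / s⌋) (hs : 0 < s) (hs4 : s ≤ 1 / 4) :
    (σ - σ') ^ 2 + (l - l') ^ 2 + (t - t') ^ 2 < s ^ 2 := by
  have a1 : |σ - σ'| < s / 2 := by
    have h1 := Int.abs_sub_lt_one_of_floor_eq_floor hfl
    have h2 : 2 * σ / s - 2 * σ' / s = (2 / s) * (σ - σ') := by field_simp
    rw [h2, abs_mul, abs_of_pos (by positivity), div_mul_eq_mul_div, div_lt_one hs] at h1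
    linarith
  have a2 : |t - t'| ≤ s / 2 := by
    rw [abs_le] at ht ht' ⊢
    by_cases h0 : 0 ≤ t
    · have h1 := htt.mp h0
      constructor <;> linarith
    · have h1 : ¬ 0 ≤ t' := fun h2 => h0 (htt.mpr h2)
      push Not at h0 h1
      constructor <;> linarith
  set L : ℝ := |l| with hL
  set L' : ℝ := |l'| with hL'
  have hLsq : L ^ 2 = l ^ 2 := sq_abs l
  have hLsq' : L' ^ 2 = l' ^ 2 := sq_abs l'
  have hσsq : |σ| ^ 2 = σ ^ 2 := sq_abs σ
  have hσsq' : |σ'| ^ 2 = σ' ^ 2 := sq_abs σ'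
  have htsq : |t| ^ 2 = t ^ 2 := sq_abs t
  have htsq' : |t'| ^ 2 = t' ^ 2 := sq_abs t'
  have L0 : 0 ≤ L := abs_nonneg l
  have L0' : 0 ≤ L' := abs_nonneg l'
  have b1 : 7 / 10 ≤ L := by
    by_contra hc
    push Not at hc
    have g1 : |σ| ^ 2 ≤ L ^ 2 := pow_le_pow_left₀ (abs_nonneg _) hσ 2
    have g2 : |t| ^ 2 ≤ (1 / 8) ^ 2 := pow_le_pow_left₀ (abs_nonneg _) (by linarith) 2
    have g3 : L ^ 2 < (7 / 10) ^ 2 := pow_lt_pow_left₀ hc L0 two_ne_zero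
    rw [hσsq] at g1
    rw [htsq] at g2
    norm_num at g2 g3
    linarith
  have b2 : 7 / 10 ≤ L' := by
    by_contra hc
    push Not at hc
    have g1 : |σ'| ^ 2 ≤ L' ^ 2 := pow_le_pow_left₀ (abs_nonneg _) hσ' 2
    have g2 : |t'| ^ 2 ≤ (1 / 8) ^ 2 := pow_le_pow_left₀ (abs_nonneg _) (by linarith) 2
    have g3 : L' ^ 2 < (7 / 10) ^ 2 := pow_lt_pow_left₀ hc L0' two_ne_zero
    rw [hσsq'] at g1
    rw [htsq'] at g2
    norm_num at g2 g3
    linarith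
  have a3 : |l - l'| = |L - L'| := by
    rw [hL, hL']
    by_cases h0 : 0 ≤ l
    · have h1 := hl.mp h0
      rw [abs_of_nonneg h0, abs_of_nonneg h1]
    · have h1 : ¬ 0 ≤ l' := fun h2 => h0 (hl.mpr h2)
      push Not at h0 h1
      rw [abs_of_neg h0, abs_of_neg h1]
      rw [show -l - -l' = -(l - l') by ring, abs_neg]
  have a4 : |L - L'| * (L + L') ≤ (s / 2) * (L + L') + s / 2 * s := by
    have e1 : |L - L'| * (L + L') = |(σ' - σ) * (σ' + σ) + (t' - t) * (t' + t)| := by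
      have e0 : |L - L'| * (L + L') = |(L - L') * (L + L')| := by
        rw [abs_mul, abs_of_nonneg (add_nonneg L0 L0')]
      rw [e0]
      congr 1
      linear_combination hLsq - hLsq' + h - h'
    rw [e1]
    refine (abs_add_le _ _).trans ?_
    rw [abs_mul, abs_mul]
    have e2 : |σ' + σ| ≤ L + L' := (abs_add_le _ _).trans (by linarith)
    have e3 : |t' + t| ≤ s := (abs_add_le _ _).trans (by linarith)
    have e4 : |σ' - σ| ≤ s / 2 := by rw [abs_sub_comm]; exact a1.le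
    have e5 : |t' - t| ≤ s / 2 := by rw [abs_sub_comm]; exact a2
    exact add_le_add (mul_le_mul e4 e2 (abs_nonneg _) (by linarith)) (mul_le_mul e5 e3 (abs_nonneg _) (by linarith))
  have a5 : |L - L'| ≤ (3 / 5) * s := by
    by_contra hc
    push Not at hc
    have g1 : (|L - L'| - s / 2) * (L + L') ≤ s / 2 * s := by linarith
    have g2 : (s / 10) * (7 / 5) ≤ (|L - L'| - s / 2) * (L + L') :=
      mul_le_mul (by linarith) (by linarith) (by norm_num) (by linarith)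
    nlinarith
  have c1 : (σ - σ') ^ 2 < (s / 2) ^ 2 := by
    rw [← sq_abs (σ - σ')]
    exact pow_lt_pow_left₀ a1 (abs_nonneg _) two_ne_zero
  have c2 : (t - t') ^ 2 ≤ (s / 2) ^ 2 := by
    rw [← sq_abs (t - t')]
    exact pow_le_pow_left₀ (abs_nonneg _) a2 2
  have c3 : (l - l') ^ 2 ≤ ((3 / 5) * s) ^ 2 := by
    rw [← sq_abs (l - l'), a3]
    exact pow_le_pow_left₀ (abs_nonneg _) a5 2
  nlinarith

/-- the class of a point -/
noncomputable def key (s : ℝ) (x : V) : Bool × Bool × Bool × ℤ :=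
  (decide (|x 0| ≤ |x 2|), decide (0 ≤ if |x 0| ≤ |x 2| then x 2 else x 0), decide (0 ≤ x 1),
    ⌊2 * (if |x 0| ≤ |x 2| then x 0 else x 2) / s⌋)

lemma key_mem {s : ℝ} (hs : 0 < s) {x : V} (hx : ‖x‖ = 1) :
    (key s x).2.2.2 ∈ Finset.Icc ⌊-(3 / 2) / s⌋ ⌊(3 / 2) / s⌋ := by
  rw [norm_one_iff] at hx
  have h : ∀ σ l : ℝ, |σ| ≤ |l| → σ ^ 2 + l ^ 2 ≤ 1 → |2 * σ| ≤ 3 / 2 := by
    intro σ l h1 h2
    have h3 : |σ| ^ 2 ≤ |l| ^ 2 := pow_le_pow_left₀ (abs_nonneg _) h1 2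
    rw [sq_abs, sq_abs] at h3
    have h4 : |σ| ^ 2 ≤ 1 / 2 := by rw [sq_abs]; linarith
    rw [abs_mul, abs_of_pos (by norm_num : (0:ℝ) < 2)]
    nlinarith [abs_nonneg σ]
  have h2 : |2 * (if |x 0| ≤ |x 2| then x 0 else x 2)| ≤ 3 / 2 := by
    split_ifs with hc
    · exact h _ _ hc (by nlinarith [sq_nonneg (x 1)])
    · exact h _ (x 0) (le_of_lt (not_le.mp hc)) (by nlinarith [sq_nonneg (x 1)])
  rw [abs_le] at h2
  rw [Finset.mem_Icc]
  show ⌊-(3 / 2) / s⌋ ≤ ⌊2 * (if |x 0| ≤ |x 2| then x 0 else x 2) / s⌋ ∧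
    ⌊2 * (if |x 0| ≤ |x 2| then x 0 else x 2) / s⌋ ≤ ⌊(3 / 2) / s⌋
  exact ⟨Int.floor_le_floor (div_le_div_of_nonneg_right h2.1 hs.le),
    Int.floor_le_floor (div_le_div_of_nonneg_right h2.2 hs.le)⟩

lemma card_near {X : Finset V} {c s : ℝ} (h1 : ∀ x ∈ X, ‖x‖ = 1)
    (h2 : ∀ x ∈ X, ∀ y ∈ X, x ≠ y → inner ℝ x y ≤ c)
    (hs : 0 < s) (hs2 : s ^ 2 = 2 - 2 * c) (hs4 : s ≤ 1 / 4) (hn : ∀ x ∈ X, near s x) :
    (X.card : ℝ) ≤ 24 / s + 16 := by
  classical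
  set T : Finset (Bool × Bool × Bool × ℤ) :=
    (Finset.univ ×ˢ Finset.univ ×ˢ Finset.univ ×ˢ Finset.Icc ⌊-(3 / 2) / s⌋ ⌊(3 / 2) / s⌋) with hT
  have hmaps : ∀ x ∈ X, key s x ∈ T := by
    intro x hx
    rw [hT]
    simp only [Finset.mem_product, Finset.mem_univ, true_and]
    exact key_mem hs (h1 x hx)
  have hinj : Set.InjOn (key s) X := by
    intro x hx y hy hxy
    by_contra hne
    have hi := h2 x hx y hy hne
    have nx := (norm_one_iff x).mp (h1 x hx)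
    have ny := (norm_one_iff y).mp (h1 y hy)
    rw [inner_eq] at hi
    have hd : s ^ 2 ≤ (x 0 - y 0) ^ 2 + (x 1 - y 1) ^ 2 + (x 2 - y 2) ^ 2 := by nlinarith
    simp only [key, Prod.mk.injEq, decide_eq_decide] at hxy
    obtain ⟨k1, k2, k3, k4⟩ := hxy
    by_cases hc : |x 0| ≤ |x 2|
    · have hc' := k1.mp hc
      simp only [hc, hc', if_true] at k2 k4
      have := close_aux (σ := x 0) (σ' := y 0) (l := x 2) (l' := y 2) (t := x 1) (t' := y 1) (by linarith)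
        (by linarith) hc hc' k2 (hn x hx).1 (hn y hy).1 k3 k4 hs hs4
      linarith
    · have hc' : ¬ |y 0| ≤ |y 2| := fun h => hc (k1.mpr h)
      simp only [hc, hc', if_false] at k2 k4
      have := close_aux (σ := x 2) (σ' := y 2) (l := x 0) (l' := y 0) (t := x 1) (t' := y 1) (by linarith)
        (by linarith) (not_le.mp hc).le (not_le.mp hc').le k2 (hn x hx).1 (hn y hy).1 k3 k4 hs hs4
      linarith
  have hcard := Finset.card_le_card_of_injOn (key s) hmaps hinj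
  have hTc : (T.card : ℝ) ≤ 8 * (3 / s + 2) := by
    have e : T.card = 8 * (Finset.Icc ⌊-(3 / 2) / s⌋ ⌊(3 / 2) / s⌋).card := by
      rw [hT, Finset.card_product, Finset.card_product, Finset.card_product]
      simp only [Finset.card_univ, Fintype.card_bool]
      ring
    rw [e]
    push_cast
    have h3 : ((Finset.Icc ⌊-(3 / 2) / s⌋ ⌊(3 / 2) / s⌋).card : ℝ) ≤ 3 / s + 2 := by
      rw [Int.card_Icc]
      have f1 := Int.floor_le ((3 / 2 : ℝ) / s)
      have f2 := Int.lt_floor_add_one (-(3 / 2 : ℝ) / s)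
      have hle : ⌊-(3 / 2 : ℝ) / s⌋ ≤ ⌊(3 / 2 : ℝ) / s⌋ + 1 := by
        have : ⌊-(3 / 2 : ℝ) / s⌋ ≤ ⌊(3 / 2 : ℝ) / s⌋ :=
          Int.floor_le_floor (div_le_div_of_nonneg_right (by norm_num) hs.le)
        omega
      have e2 : (((⌊(3 / 2 : ℝ) / s⌋ + 1 - ⌊-(3 / 2 : ℝ) / s⌋).toNat : ℕ) : ℝ) =
          (⌊(3 / 2 : ℝ) / s⌋ : ℝ) + 1 - (⌊-(3 / 2 : ℝ) / s⌋ : ℝ) := by
        have : (((⌊(3 / 2 : ℝ) / s⌋ + 1 - ⌊-(3 / 2 : ℝ) / s⌋).toNat : ℕ) : ℤ) =
            ⌊(3 / 2 : ℝ) / s⌋ + 1 - ⌊-(3 / 2 : ℝ) / s⌋ := Int.toNat_of_nonneg (by omega)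
        exact_mod_cast this
      rw [e2]
      have e3 : (3 / 2 : ℝ) / s - -(3 / 2 : ℝ) / s = 3 / s := by field_simp; ring
      linarith
    linarith
  have : (X.card : ℝ) ≤ (T.card : ℝ) := by exact_mod_cast hcard
  have e4 : 8 * (3 / s + 2) = 24 / s + 16 := by ring
  linarith

end Tam
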