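import Pool.Agent.Tam.Cut

/-!
# The Tammes problem (MP_97a6ed_co): the exact neighbourhood of a half great circle
-/

namespace Tam

open Real Filter Topology

/-- the points at angle at most `θ / 2` from the half great circle `x 1 = 0, x 0 ≥ 0`, where
`c = cos θ` (without the boundary of the part with `x 0 ≤ 0`) -/
def near2 (c : ℝ) (x : V) : Prop := (0 < x 0 ∧ x 1 ^ 2 ≤ (1 - c) / 2) ∨ (1 + c) / 2 < x 2 ^ 2

lemma phi_lt2 {c : ℝ} (hc : c < 1) {x : V} (hx : ¬ near2 c x) : phi x < 2 * π := by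
  have h1 := Complex.arg_le_pi ⟨-x 0, -x 1⟩
  have h2 : Complex.arg ⟨-x 0, -x 1⟩ ≠ π := by
    intro h
    rw [Complex.arg_eq_pi_iff] at h
    simp only [Left.neg_neg_iff, neg_eq_zero] at h
    apply hx
    left
    refine ⟨h.1, ?_⟩
    rw [h.2]
    nlinarith
  have := lt_of_le_of_ne h1 h2
  rw [phi]; linarith

lemma rho_pos2 {c : ℝ} (hc : c < 1) {x : V} (hx1 : ‖x‖ = 1) (hx : ¬ near2 c x) : 0 < rho x := by
  rw [rho, Real.sqrt_pos]
  by_contra hcon
  apply hx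
  right
  rw [norm_one_iff] at hx1
  nlinarith [sq_nonneg (x 0), sq_nonneg (x 1)]

/-- the end point of a short arc which is nearer to the half plane it crosses -/
lemma cross_aux {c x0 x1 x2 y0 y1 y2 p q : ℝ} (hc : -1 < c) (hx : x0 ^ 2 + x1 ^ 2 + x2 ^ 2 = 1)
    (hy : y0 ^ 2 + y1 ^ 2 + y2 ^ 2 = 1) (hin : c ≤ x0 * y0 + x1 * y1 + x2 * y2) (hp : 0 < p)
    (hpq : p ≤ q) (e : q * x1 + p * y1 = 0) (hz : 0 < q * x0 + p * y0) :
    (0 < x0 ∧ x1 ^ 2 ≤ (1 - c) / 2) ∨ (1 + c) / 2 < x2 ^ 2 := by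
  set t : ℝ := x0 * y0 + x1 * y1 + x2 * y2 with ht
  have ht1 : t ≤ 1 := by nlinarith [sq_nonneg (x0 - y0), sq_nonneg (x1 - y1), sq_nonneg (x2 - y2)]
  have ht2 : -1 ≤ t := by nlinarith [sq_nonneg (x0 + y0), sq_nonneg (x1 + y1), sq_nonneg (x2 + y2)]
  set z0 : ℝ := q * x0 + p * y0 with hz0
  set z2 : ℝ := q * x2 + p * y2 with hz2
  have hq : 0 < q := by linarith
  have hZ : z0 ^ 2 + z2 ^ 2 = q ^ 2 + p ^ 2 + 2 * p * q * t := by
    have : z0 ^ 2 + z2 ^ 2 + (q * x1 + p * y1) ^ 2 =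
        q ^ 2 * (x0 ^ 2 + x1 ^ 2 + x2 ^ 2) + p ^ 2 * (y0 ^ 2 + y1 ^ 2 + y2 ^ 2) + 2 * p * q * t := by
      rw [hz0, hz2, ht]; ring
    rw [e, hx, hy] at this
    linarith
  have hX : x0 * z0 + x2 * z2 = q + p * t := by
    have : x0 * z0 + x2 * z2 + x1 * (q * x1 + p * y1) =
        q * (x0 ^ 2 + x1 ^ 2 + x2 ^ 2) + p * t := by
      rw [hz0, hz2, ht]; ring
    rw [e, hx] at this
    linarith
  have hXn : 0 ≤ x0 * z0 + x2 * z2 := by
    rw [hX]; nlinarith
  have hZpos : 0 < z0 ^ 2 + z2 ^ 2 := by positivity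
  have hmain : (1 + c) / 2 * (z0 ^ 2 + z2 ^ 2) ≤ (x0 * z0 + x2 * z2) ^ 2 := by
    have h1 : (x0 * z0 + x2 * z2) ^ 2 - (1 + t) / 2 * (z0 ^ 2 + z2 ^ 2) =
        (1 - t) / 2 * ((q - p) * (q + p + 2 * p * t)) := by
      rw [hX, hZ]; ring
    have h2 : 0 ≤ (1 - t) / 2 * ((q - p) * (q + p + 2 * p * t)) := by
      apply mul_nonneg (by linarith)
      apply mul_nonneg (by linarith)
      nlinarith
    have h3 : (1 + c) / 2 * (z0 ^ 2 + z2 ^ 2) ≤ (1 + t) / 2 * (z0 ^ 2 + z2 ^ 2) :=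
      mul_le_mul_of_nonneg_right (by linarith) hZpos.le
    linarith
  rcases lt_or_ge 0 x0 with h | h
  · left
    refine ⟨h, ?_⟩
    have h4 : (x0 * z0 + x2 * z2) ^ 2 ≤ (x0 ^ 2 + x2 ^ 2) * (z0 ^ 2 + z2 ^ 2) := by
      nlinarith [sq_nonneg (x0 * z2 - x2 * z0)]
    have h5 : (1 + c) / 2 ≤ x0 ^ 2 + x2 ^ 2 :=
      le_of_mul_le_mul_right (hmain.trans h4) hZpos
    linarith
  · right
    by_contra hcon
    push Not at hcon
    have h6 : x0 * z0 + x2 * z2 ≤ x2 * z2 := by nlinarith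
    have h7 : (x0 * z0 + x2 * z2) ^ 2 ≤ (x2 * z2) ^ 2 := by
      apply pow_le_pow_left₀ hXn h6
    have h8 : (x2 * z2) ^ 2 ≤ (1 + c) / 2 * z2 ^ 2 := by
      rw [mul_pow]
      exact mul_le_mul_of_nonneg_right hcon (sq_nonneg _)
    have h9 : 0 < (1 + c) / 2 * z0 ^ 2 := by
      have : 0 < z0 ^ 2 := by positivity
      exact mul_pos (by linarith) this
    nlinarith

/-- two points at angle at most `θ` are not separated by the cut -/
lemma contact2 {c : ℝ} (hc : -1 < c) (hc1 : c < 1) {x y : V} (hx : ‖x‖ = 1) (hy : ‖y‖ = 1)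
    (nx : ¬ near2 c x) (ny : ¬ near2 c y) (hin : c ≤ inner ℝ x y) (hdet : x 0 * y 1 - x 1 * y 0 ≠ 0)
    (hle : phi x ≤ phi y) : 0 < phi y - phi x ∧ phi y - phi x < π := by
  have hd := det_eq x y
  have rx := rho_pos2 hc1 hx nx
  have ry := rho_pos2 hc1 hy ny
  have h0 : phi y - phi x ≠ 0 := by
    intro h; rw [h, Real.sin_zero, mul_zero] at hd; exact hdet hd.symm
  have hpi : phi y - phi x ≠ π := by
    intro h; rw [h, Real.sin_pi, mul_zero] at hd; exact hdet hd.symm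
  have hpos : 0 < phi y - phi x := lt_of_le_of_ne (by linarith) (Ne.symm h0)
  refine ⟨hpos, ?_⟩
  by_contra hcon
  have hgt : π < phi y - phi x := lt_of_le_of_ne (not_lt.mp hcon) (Ne.symm hpi)
  have hy2 := phi_lt2 hc1 ny
  have hx0 := phi_pos x
  have s1 : 0 < sin (phi x) := Real.sin_pos_of_pos_of_lt_pi hx0 (by linarith)
  have s2 : sin (phi y) < 0 := by
    have : 0 < sin (phi y - π) := Real.sin_pos_of_pos_of_lt_pi (by linarith) (by linarith)
    rw [Real.sin_sub_pi] at this; linarith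
  have s3 : sin (phi y - phi x) < 0 := by
    have : 0 < sin (phi y - phi x - π) := Real.sin_pos_of_pos_of_lt_pi (by linarith) (by linarith)
    rw [Real.sin_sub_pi] at this; linarith
  have hp : 0 < x 1 := by rw [← rho_sin x]; positivity
  have hq : y 1 < 0 := by rw [← rho_sin y]; exact mul_neg_of_pos_of_neg ry s2
  have hdn : x 0 * y 1 - x 1 * y 0 < 0 := by
    rw [← hd]; exact mul_neg_of_pos_of_neg (by positivity) s3
  rw [norm_one_iff] at hx hy
  rw [inner_eq] at hin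
  by_cases hpq : x 1 ≤ -y 1
  · exact nx (cross_aux (p := x 1) (q := -y 1) hc hx hy hin hp hpq (by ring) (by linarith))
  · push Not at hpq
    exact ny (cross_aux (p := -y 1) (q := x 1) hc hy hx (by linarith) (by linarith) hpq.le (by ring)
      (by linarith))

lemma ev_lt2 {c : ℝ} (hcm : -1 < c) (hc1 : c < 1) {x y : V} (hx : ‖x‖ = 1) (hy : ‖y‖ = 1)
    (nx : ¬ near2 c x) (ny : ¬ near2 c y) (hin : inner ℝ x y ≤ c)
    (hdet : inner ℝ x y = c → x 0 * y 1 - x 1 * y 0 ≠ 0) (hle : phi x ≤ phi y) :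
    ∀ᶠ ε in 𝓝[>] (0 : ℝ), inner ℝ (st ε x) (st ε y) < c := by
  rcases lt_or_eq_of_le hin with h | h
  · have hcont : Continuous fun ε : ℝ => inner ℝ (st ε x) (st ε y) := by
      simp_rw [inner_st]
      fun_prop
    have h0 : (fun ε : ℝ => inner ℝ (st ε x) (st ε y)) 0 < c := by
      show inner ℝ (st 0 x) (st 0 y) < c
      rw [inner_st_zero]; exact h
    exact (hcont.continuousAt.eventually_lt continuousAt_const h0).filter_mono nhdsWithin_le_nhds
  · obtain ⟨h1, h2⟩ := contact2 hcm hc1 hx hy nx ny h.ge (hdet h) hle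
    have hcont : Continuous fun ε : ℝ => (1 + ε) * (phi y - phi x) := by fun_prop
    have h3 : ∀ᶠ ε in 𝓝 (0 : ℝ), (1 + ε) * (phi y - phi x) < π :=
      hcont.continuousAt.eventually_lt continuousAt_const (by simpa using h2)
    filter_upwards [self_mem_nhdsWithin, h3.filter_mono nhdsWithin_le_nhds] with ε hε hε2
    have hε' : 0 < ε := hε
    rw [← h, ← inner_st_zero x y, inner_st, inner_st, add_zero, one_mul]
    have hcos : cos ((1 + ε) * (phi y - phi x)) < cos (phi y - phi x) := by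
      apply Real.cos_lt_cos_of_nonneg_of_le_pi h1.le hε2.le
      nlinarith
    have rx := rho_pos2 hc1 hx nx
    have ry := rho_pos2 hc1 hy ny
    have := mul_lt_mul_of_pos_left hcos (mul_pos rx ry)
    linarith

/-- a configuration without points near the half great circle can be improved -/
theorem improve2 {X : Finset V} {c : ℝ} (h1 : ∀ x ∈ X, ‖x‖ = 1)
    (h2 : ∀ x ∈ X, ∀ y ∈ X, x ≠ y → inner ℝ x y ≤ c)
    (hgen : ∀ x ∈ X, ∀ y ∈ X, x ≠ y → x ≠ -y → x 0 * y 1 - x 1 * y 0 ≠ 0)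
    (hc : -1 < c) (hc1 : c < 1) (hn : ∀ x ∈ X, ¬ near2 c x) :
    ∃ c' < c, Conf X.card c' := by
  classical
  have hne : ∀ x ∈ X, ∀ y ∈ X, inner ℝ x y = c → x ≠ -y := by
    intro x hx y hy h he
    rw [he, inner_neg_left, real_inner_self_eq_norm_sq, h1 y hy] at h
    linarith
  have hev : ∀ᶠ ε in 𝓝[>] (0 : ℝ), ∀ p ∈ X.offDiag, inner ℝ (st ε p.1) (st ε p.2) < c := by
    rw [Filter.eventually_all_finset]
    intro p hp
    rw [Finset.mem_offDiag] at hp
    obtain ⟨hx, hy, hxy⟩ := hp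
    rcases le_total (phi p.1) (phi p.2) with hle | hle
    · exact ev_lt2 hc hc1 (h1 _ hx) (h1 _ hy) (hn _ hx) (hn _ hy) (h2 _ hx _ hy hxy)
        (fun h => hgen _ hx _ hy hxy (hne _ hx _ hy h)) hle
    · have := ev_lt2 hc hc1 (h1 _ hy) (h1 _ hx) (hn _ hy) (hn _ hx) (h2 _ hy _ hx hxy.symm)
        (fun h => hgen _ hy _ hx hxy.symm (hne _ hy _ hx h)) hle
      filter_upwards [this] with ε hε
      rw [real_inner_comm]; exact hε
  obtain ⟨ε, hε⟩ := hev.exists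
  obtain ⟨c', hc', hb⟩ := exists_lt_bound X.offDiag (fun p => inner ℝ (st ε p.1) (st ε p.2)) c hε
  have hinj : Set.InjOn (st ε) X := by
    intro x hx y hy hxy
    by_contra hne
    have := hb (x, y) (Finset.mem_offDiag.mpr ⟨hx, hy, hne⟩)
    simp only at this
    rw [hxy, real_inner_self_eq_norm_sq, norm_st (h1 y hy)] at this
    linarith
  refine ⟨c', hc', X.image (st ε), Finset.card_image_of_injOn hinj, ?_, ?_⟩
  · intro x hx
    obtain ⟨x', hx', rfl⟩ := Finset.mem_image.mp hx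
    exact norm_st (h1 x' hx')
  · intro x hx y hy hxy
    obtain ⟨x', hx', rfl⟩ := Finset.mem_image.mp hx
    obtain ⟨y', hy', rfl⟩ := Finset.mem_image.mp hy
    exact hb (x', y') (Finset.mem_offDiag.mpr ⟨hx', hy', fun h => hxy (congrArg (st ε) h)⟩)

end Tam
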