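import Mathlib

/-!
# The Tammes problem (MP_97a6ed_co): definitions and first lemmas
-/

namespace Tam

open Real

/-- Euclidean 3-space. -/
abbrev V := EuclideanSpace ℝ (Fin 3)

/-- `a n`: the largest `d` such that there are `n` points of the unit sphere of `ℝ³` any two of
which are at angle at least `d` (the supremum of the minimal angle over all `n`-point sets). -/
noncomputable def a (n : ℕ) : ℝ :=
  sSup {d : ℝ | ∃ X : Finset V, X.card = n ∧ (∀ x ∈ X, ‖x‖ = 1) ∧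
    ∀ x ∈ X, ∀ y ∈ X, x ≠ y → d ≤ InnerProductGeometry.angle x y}

/-- configurations with inner products at most `c` -/
def Conf (n : ℕ) (c : ℝ) : Prop :=
  ∃ X : Finset V, X.card = n ∧ (∀ x ∈ X, ‖x‖ = 1) ∧ ∀ x ∈ X, ∀ y ∈ X, x ≠ y → inner ℝ x y ≤ c

lemma inner_eq (x y : V) : inner ℝ x y = x 0 * y 0 + x 1 * y 1 + x 2 * y 2 := by
  rw [PiLp.inner_apply, Fin.sum_univ_three]
  simp [mul_comm]

lemma norm_one_iff (x : V) : ‖x‖ = 1 ↔ x 0 ^ 2 + x 1 ^ 2 + x 2 ^ 2 = 1 := by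
  have h := real_inner_self_eq_norm_sq x
  rw [inner_eq] at h
  constructor
  · intro hx; rw [hx] at h; nlinarith
  · intro hx
    have h2 : ‖x‖ ^ 2 = 1 := by nlinarith
    have := norm_nonneg x
    nlinarith

lemma angle_eq {x y : V} (hx : ‖x‖ = 1) (hy : ‖y‖ = 1) :
    InnerProductGeometry.angle x y = arccos (inner ℝ x y) := by
  simp [InnerProductGeometry.angle, hx, hy]

lemma abs_inner_le {x y : V} (hx : ‖x‖ = 1) (hy : ‖y‖ = 1) :
    -1 ≤ inner ℝ x y ∧ inner ℝ x y ≤ 1 := by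
  have := abs_real_inner_le_norm x y
  rw [hx, hy, mul_one] at this
  exact abs_le.mp this

lemma Conf.mono_card {n m : ℕ} {c : ℝ} (h : Conf n c) (hm : m ≤ n) : Conf m c := by
  obtain ⟨X, hX, h1, h2⟩ := h
  obtain ⟨Y, hY, hY2⟩ := Finset.exists_subset_card_eq (by rw [hX]; exact hm : m ≤ X.card)
  exact ⟨Y, hY2, fun x hx => h1 x (hY hx), fun x hx y hy => h2 x (hY hx) y (hY hy)⟩

lemma Conf.mono {n : ℕ} {c c' : ℝ} (h : Conf n c) (hc : c ≤ c') : Conf n c' := by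
  obtain ⟨X, hX, h1, h2⟩ := h
  exact ⟨X, hX, h1, fun x hx y hy hxy => (h2 x hx y hy hxy).trans hc⟩

lemma Conf.neg_one_le {n : ℕ} {c : ℝ} (h : Conf n c) (hn : 2 ≤ n) : -1 ≤ c := by
  obtain ⟨X, hX, h1, h2⟩ := h
  obtain ⟨x, hx, y, hy, hxy⟩ := Finset.one_lt_card.mp (by omega : 1 < X.card)
  exact (abs_inner_le (h1 x hx) (h1 y hy)).1.trans (h2 x hx y hy hxy)

lemma bddAbove_a {n : ℕ} (hn : 2 ≤ n) : BddAbove {d : ℝ | ∃ X : Finset V, X.card = n ∧
    (∀ x ∈ X, ‖x‖ = 1) ∧ ∀ x ∈ X, ∀ y ∈ X, x ≠ y → d ≤ InnerProductGeometry.angle x y} := by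
  refine ⟨π, ?_⟩
  rintro d ⟨X, hX, -, h2⟩
  obtain ⟨x, hx, y, hy, hxy⟩ := Finset.one_lt_card.mp (by omega : 1 < X.card)
  exact (h2 x hx y hy hxy).trans (InnerProductGeometry.angle_le_pi x y)

lemma arccos_le_a {n : ℕ} {c : ℝ} (hn : 2 ≤ n) (h : Conf n c) : arccos c ≤ a n := by
  obtain ⟨X, hX, h1, h2⟩ := h
  refine le_csSup (bddAbove_a hn) ⟨X, hX, h1, fun x hx y hy hxy => ?_⟩
  rw [angle_eq (h1 x hx) (h1 y hy)]
  exact Real.arccos_le_arccos (h2 x hx y hy hxy)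

/-- an upper bound for `a n` from the optimality of a configuration -/
lemma a_le {n : ℕ} {c : ℝ} (hn : 2 ≤ n) (h : Conf n c) (hopt : ∀ c', Conf n c' → c ≤ c') :
    a n ≤ arccos c := by
  obtain ⟨X, hX, h1, h2⟩ := h
  refine csSup_le ⟨0, X, hX, h1, fun x _ y _ _ => InnerProductGeometry.angle_nonneg x y⟩ ?_
  rintro d ⟨Y, hY, g1, g2⟩
  by_cases hd : d ≤ 0
  · exact hd.trans (Real.arccos_nonneg c)
  push Not at hd
  have hd' : d ≤ π := by
    obtain ⟨x, hx, y, hy, hxy⟩ := Finset.one_lt_card.mp (by omega : 1 < Y.card)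
    exact (g2 x hx y hy hxy).trans (InnerProductGeometry.angle_le_pi x y)
  have hc : c ≤ cos d := by
    apply hopt
    refine ⟨Y, hY, g1, fun x hx y hy hxy => ?_⟩
    have h3 := g2 x hx y hy hxy
    have h4 := InnerProductGeometry.cos_angle_mul_norm_mul_norm x y
    rw [g1 x hx, g1 y hy, mul_one, mul_one] at h4
    rw [← h4]
    exact Real.cos_le_cos_of_nonneg_of_le_pi hd.le (InnerProductGeometry.angle_le_pi x y) h3
  have := Real.arccos_le_arccos hc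
  rwa [Real.arccos_cos hd.le hd'] at this

/-- compactness: there is an optimal configuration -/
lemma exists_opt {n : ℕ} (hn : 2 ≤ n) {c0 : ℝ} (h0 : Conf n c0) (hc0 : c0 < 1) :
    ∃ c : ℝ, c ≤ c0 ∧ Conf n c ∧ ∀ c', Conf n c' → c ≤ c' := by
  classical
  -- functions `Fin n → V` with values on the sphere
  set K : Set (Fin n → V) := Set.pi Set.univ (fun _ => Metric.sphere (0 : V) 1) with hK
  have hKc : IsCompact K := isCompact_univ_pi (fun _ => isCompact_sphere (0 : V) 1)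
  set P : Finset (Fin n × Fin n) := Finset.univ.filter (fun p => p.1 ≠ p.2) with hP
  have hPne : P.Nonempty := by
    refine ⟨(⟨0, by omega⟩, ⟨1, by omega⟩), ?_⟩
    simp [hP]
  set g : (Fin n → V) → ℝ := fun f => P.sup' hPne (fun p => inner ℝ (f p.1) (f p.2)) with hg
  have hgc : Continuous g := by
    apply Continuous.finset_sup'_apply
    intro p _
    exact (continuous_apply p.1).inner (continuous_apply p.2)
  -- a configuration gives a function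
  have hfun : ∀ c, Conf n c → ∃ f ∈ K, g f ≤ c := by
    rintro c ⟨X, hX, h1, h2⟩
    let e : Fin n ≃ X := (X.equivFinOfCardEq hX).symm
    refine ⟨fun i => (e i : V), ?_, ?_⟩
    · intro i _
      rw [mem_sphere_zero_iff_norm]
      exact h1 _ (e i).2
    · apply Finset.sup'_le
      intro p hp
      have hp' : p.1 ≠ p.2 := by simpa [hP] using hp
      exact h2 _ (e p.1).2 _ (e p.2).2 (fun h => hp' (e.injective (Subtype.ext h)))
  obtain ⟨f0, hf0, hf0c⟩ := hfun c0 h0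
  obtain ⟨f, hf, hfmin⟩ := hKc.exists_isMinOn ⟨f0, hf0⟩ hgc.continuousOn
  have hfK : ∀ i, ‖f i‖ = 1 := fun i => by
    have := hf i (Set.mem_univ i)
    rwa [mem_sphere_zero_iff_norm] at this
  have hc1 : g f ≤ c0 := (hfmin hf0).trans hf0c
  have hle : ∀ i j : Fin n, i ≠ j → inner ℝ (f i) (f j) ≤ g f := by
    intro i j hij
    exact Finset.le_sup' (fun p : Fin n × Fin n => inner ℝ (f p.1) (f p.2)) (b := (i, j)) (by simp [hP, hij])
  have hinj : Function.Injective f := by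
    intro i j hij
    by_contra hne
    have h1 := hle i j hne
    rw [hij, real_inner_self_eq_norm_sq, hfK j] at h1
    linarith
  refine ⟨g f, hc1, ⟨Finset.univ.image f, ?_, ?_, ?_⟩, ?_⟩
  · rw [Finset.card_image_of_injective _ hinj]; simp
  · intro x hx
    obtain ⟨i, -, rfl⟩ := Finset.mem_image.mp hx
    exact hfK i
  · intro x hx y hy hxy
    obtain ⟨i, -, rfl⟩ := Finset.mem_image.mp hx
    obtain ⟨j, -, rfl⟩ := Finset.mem_image.mp hy
    exact hle i j (fun h => hxy (by rw [h]))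
  · intro c' hc'
    obtain ⟨f', hf', hle'⟩ := hfun c' hc'
    exact (hfmin hf').trans hle'

/-- strict improvement -/
lemma a_lt {n m : ℕ} {c c' : ℝ} (hn : 2 ≤ n) (hm : 2 ≤ m) (h : Conf n c)
    (hopt : ∀ c', Conf n c' → c ≤ c') (h' : Conf m c') (hc : c' < c) : a n < a m := by
  have h1 := a_le hn h hopt
  have h2 := arccos_le_a hm h'
  have h3 : arccos c < arccos c' := by
    obtain ⟨X, hX, g1, g2⟩ := id h
    have hcl : c ≤ 1 := by
      apply hopt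
      exact ⟨X, hX, g1, fun x hx y hy _ => (abs_inner_le (g1 x hx) (g1 y hy)).2⟩
    exact Real.strictAntiOn_arccos ⟨h'.neg_one_le hm, hc.le.trans hcl⟩ ⟨h.neg_one_le hn, hcl⟩ hc
  linarith

/-- `a` is antitone -/
lemma a_anti {n m : ℕ} (hm : 2 ≤ m) (h : m ≤ n) {c : ℝ} (hc : Conf n c) : a n ≤ a m := by
  refine csSup_le_csSup (bddAbove_a hm) ?_ ?_
  · obtain ⟨X, hX, h1, -⟩ := hc
    exact ⟨0, X, hX, h1, fun x _ y _ _ => InnerProductGeometry.angle_nonneg x y⟩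
  · rintro d ⟨X, hX, h1, h2⟩
    obtain ⟨Y, hY, hY2⟩ := Finset.exists_subset_card_eq (by rw [hX]; exact h : m ≤ X.card)
    exact ⟨Y, hY2, fun x hx => h1 x (hY hx), fun x hx y hy => h2 x (hY hx) y (hY hy)⟩

/-! ## A grid on a face of the cube -/

/-- the central projection of the point `(u, v, 1)` -/
noncomputable def proj (u v : ℝ) : V := !₂[u / √(1 + u ^ 2 + v ^ 2), v / √(1 + u ^ 2 + v ^ 2), 1 / √(1 + u ^ 2 + v ^ 2)]

lemma norm_proj (u v : ℝ) : ‖proj u v‖ = 1 := by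
  rw [norm_one_iff]
  have hpos : 0 < 1 + u ^ 2 + v ^ 2 := by positivity
  have hs : √(1 + u ^ 2 + v ^ 2) ^ 2 = 1 + u ^ 2 + v ^ 2 := Real.sq_sqrt hpos.le
  have hs0 : √(1 + u ^ 2 + v ^ 2) ≠ 0 := (Real.sqrt_pos.mpr hpos).ne'
  show (u / √(1 + u ^ 2 + v ^ 2)) ^ 2 + (v / √(1 + u ^ 2 + v ^ 2)) ^ 2 + (1 / √(1 + u ^ 2 + v ^ 2)) ^ 2 = 1
  rw [div_pow, div_pow, div_pow, hs]
  field_simp
  ring

lemma inner_proj_le {u v u' v' δ : ℝ} (hu : |u| ≤ 1) (hv : |v| ≤ 1) (hu' : |u'| ≤ 1) (hv' : |v'| ≤ 1)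
    (hδ0 : 0 ≤ δ) (hδ : δ ^ 2 ≤ (u - u') ^ 2 + (v - v') ^ 2) :
    inner ℝ (proj u v) (proj u' v') ≤ 1 - δ ^ 2 / 18 := by
  set A : ℝ := 1 + u ^ 2 + v ^ 2 with hA
  set B : ℝ := 1 + u' ^ 2 + v' ^ 2 with hB
  have hu2 : u ^ 2 ≤ 1 := by rw [← sq_abs]; nlinarith [abs_nonneg u]
  have hv2 : v ^ 2 ≤ 1 := by rw [← sq_abs]; nlinarith [abs_nonneg v]
  have hu2' : u' ^ 2 ≤ 1 := by rw [← sq_abs]; nlinarith [abs_nonneg u']
  have hv2' : v' ^ 2 ≤ 1 := by rw [← sq_abs]; nlinarith [abs_nonneg v']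
  have hA1 : 1 ≤ A := by rw [hA]; nlinarith [sq_nonneg u, sq_nonneg v]
  have hB1 : 1 ≤ B := by rw [hB]; nlinarith [sq_nonneg u', sq_nonneg v']
  have hA3 : A ≤ 3 := by rw [hA]; linarith
  have hB3 : B ≤ 3 := by rw [hB]; linarith
  have hsA : √A ^ 2 = A := Real.sq_sqrt (by linarith)
  have hsB : √B ^ 2 = B := Real.sq_sqrt (by linarith)
  have hpA : 0 < √A := Real.sqrt_pos.mpr (by linarith)
  have hpB : 0 < √B := Real.sqrt_pos.mpr (by linarith)
  have hin : inner ℝ (proj u v) (proj u' v') = (1 + u * u' + v * v') / (√A * √B) := by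
    rw [inner_eq]
    show u / √A * (u' / √B) + v / √A * (v' / √B) + 1 / √A * (1 / √B) = _
    field_simp
    ring
  rw [hin]
  set t : ℝ := (1 + u * u' + v * v') / (√A * √B) with ht
  have htt : t * (√A * √B) = 1 + u * u' + v * v' := by rw [ht]; field_simp
  have ht2 : t ^ 2 * (A * B) = (1 + u * u' + v * v') ^ 2 := by
    rw [← htt, mul_pow, mul_pow, hsA, hsB]
  have hAB : A * B - (1 + u * u' + v * v') ^ 2 =
      (u - u') ^ 2 + (v - v') ^ 2 + (u * v' - v * u') ^ 2 := by rw [hA, hB]; ring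
  have h1 : δ ^ 2 ≤ (1 - t ^ 2) * (A * B) := by nlinarith [sq_nonneg (u * v' - v * u')]
  have h2 : t ^ 2 ≤ 1 - δ ^ 2 / 9 := by
    by_contra hcon
    push Not at hcon
    have hAB9 : A * B ≤ 9 := by nlinarith
    have hAB0 : 0 < A * B := by positivity
    by_cases h3 : 1 - t ^ 2 ≤ 0
    · have : (1 - t ^ 2) * (A * B) ≤ 0 := mul_nonpos_of_nonpos_of_nonneg h3 hAB0.le
      have hδ2 : δ ^ 2 = 0 := le_antisymm (h1.trans this) (sq_nonneg δ)
      have : (1 - t ^ 2) * (A * B) = 0 := le_antisymm this (by rw [← hδ2]; exact h1)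
      rcases mul_eq_zero.mp this with h4 | h4
      · rw [hδ2] at hcon; linarith
      · exact absurd h4 hAB0.ne'
    · push Not at h3
      have h4 : (1 - t ^ 2) * (A * B) ≤ (1 - t ^ 2) * 9 := mul_le_mul_of_nonneg_left hAB9 h3.le
      linarith
  nlinarith [sq_nonneg (t - 1)]

/-- the grid -/
lemma conf_grid {m : ℕ} (hm : 1 ≤ m) : Conf (m ^ 2) (1 - 2 / (9 * (m : ℝ) ^ 2)) := by
  classical
  have hm0 : (0 : ℝ) < m := by exact_mod_cast hm
  set F : Fin m × Fin m → V := fun p => proj (2 * (p.1 : ℕ) / m - 1) (2 * (p.2 : ℕ) / m - 1) with hF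
  have hcoord : ∀ i : Fin m, |2 * ((i : ℕ) : ℝ) / m - 1| ≤ 1 := by
    intro i
    have h1 : ((i : ℕ) : ℝ) ≤ m := by exact_mod_cast i.2.le
    have h0 : (0 : ℝ) ≤ (i : ℕ) := Nat.cast_nonneg _
    rw [abs_le]
    constructor
    · have : 0 ≤ 2 * ((i : ℕ) : ℝ) / m := by positivity
      linarith
    · have : 2 * ((i : ℕ) : ℝ) / m ≤ 2 := by rw [div_le_iff₀ hm0]; linarith
      linarith
  have hsep : ∀ i j : Fin m, i ≠ j → (2 / (m : ℝ)) ^ 2 ≤
      ((2 * ((i : ℕ) : ℝ) / m - 1) - (2 * ((j : ℕ) : ℝ) / m - 1)) ^ 2 := by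
    intro i j hij
    have h1 : (1 : ℝ) ≤ (((i : ℕ) : ℝ) - (j : ℕ)) ^ 2 := by
      have h2 : ((i : ℕ) : ℤ) - (j : ℕ) ≠ 0 := by
        intro h
        apply hij
        apply Fin.ext
        omega
      have h3 : (1 : ℤ) ≤ (((i : ℕ) : ℤ) - (j : ℕ)) ^ 2 := by
        have := sq_nonneg (((i : ℕ) : ℤ) - (j : ℕ))
        have h4 : (((i : ℕ) : ℤ) - (j : ℕ)) ^ 2 ≠ 0 := pow_ne_zero 2 h2
        omega
      exact_mod_cast h3
    have h2 : (2 * ((i : ℕ) : ℝ) / m - 1) - (2 * ((j : ℕ) : ℝ) / m - 1) =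
        (2 / (m : ℝ)) * (((i : ℕ) : ℝ) - (j : ℕ)) := by field_simp; ring
    rw [h2, mul_pow]
    nlinarith [sq_nonneg (2 / (m : ℝ))]
  have hin : ∀ p q, p ≠ q → inner ℝ (F p) (F q) ≤ 1 - 2 / (9 * (m : ℝ) ^ 2) := by
    intro p q hpq
    have h1 : (2 / (m : ℝ)) ^ 2 ≤
        ((2 * ((p.1 : ℕ) : ℝ) / m - 1) - (2 * ((q.1 : ℕ) : ℝ) / m - 1)) ^ 2 +
        ((2 * ((p.2 : ℕ) : ℝ) / m - 1) - (2 * ((q.2 : ℕ) : ℝ) / m - 1)) ^ 2 := by
      by_cases h : p.1 = q.1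
      · have h2 : p.2 ≠ q.2 := fun h2 => hpq (Prod.ext h h2)
        have := hsep _ _ h2
        nlinarith [sq_nonneg ((2 * ((p.1 : ℕ) : ℝ) / m - 1) - (2 * ((q.1 : ℕ) : ℝ) / m - 1))]
      · have := hsep _ _ h
        nlinarith [sq_nonneg ((2 * ((p.2 : ℕ) : ℝ) / m - 1) - (2 * ((q.2 : ℕ) : ℝ) / m - 1))]
    have h2 := inner_proj_le (hcoord p.1) (hcoord p.2) (hcoord q.1) (hcoord q.2) (by positivity) h1
    refine h2.trans (le_of_eq ?_)
    field_simp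
    ring
  have hinj : Function.Injective F := by
    intro p q hpq
    by_contra hne
    have h1 := hin p q hne
    rw [hpq, real_inner_self_eq_norm_sq, norm_proj] at h1
    have : 0 < 2 / (9 * (m : ℝ) ^ 2) := by positivity
    linarith
  refine ⟨Finset.univ.image F, ?_, ?_, ?_⟩
  · rw [Finset.card_image_of_injective _ hinj]; simp [sq]
  · intro x hx
    obtain ⟨i, -, rfl⟩ := Finset.mem_image.mp hx
    exact norm_proj _ _
  · intro x hx y hy hxy
    obtain ⟨i, -, rfl⟩ := Finset.mem_image.mp hx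
    obtain ⟨j, -, rfl⟩ := Finset.mem_image.mp hy
    exact hin i j (fun h => hxy (by rw [h]))

lemma conf_sqrt {n : ℕ} (hn : 1 ≤ n) : Conf n (1 - 1 / (18 * (n : ℝ))) := by
  set m : ℕ := ⌈√(n : ℝ)⌉₊ with hm
  have hn0 : (1 : ℝ) ≤ n := by exact_mod_cast hn
  have h1 : √(n : ℝ) ≤ m := Nat.le_ceil _
  have h2 : (m : ℝ) < √(n : ℝ) + 1 := Nat.ceil_lt_add_one (Real.sqrt_nonneg _)
  have hs1 : 1 ≤ √(n : ℝ) := by rw [Real.one_le_sqrt]; exact hn0
  have hss : √(n : ℝ) ^ 2 = n := Real.sq_sqrt (by linarith)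
  have hm1 : 1 ≤ m := by
    have : (1 : ℝ) ≤ m := hs1.trans h1
    exact_mod_cast this
  have hnm : n ≤ m ^ 2 := by
    have : (n : ℝ) ≤ (m : ℝ) ^ 2 := by nlinarith
    exact_mod_cast this
  refine ((conf_grid hm1).mono_card hnm).mono ?_
  have hm0 : (0 : ℝ) < m := by exact_mod_cast hm1
  have h3 : (m : ℝ) ^ 2 ≤ 4 * n := by nlinarith
  have h4 : 1 / (18 * (n : ℝ)) ≤ 2 / (9 * (m : ℝ) ^ 2) := by
    rw [div_le_div_iff₀ (by positivity) (by positivity)]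
    nlinarith
  linarith

end Tam
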