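import Pool.Agent.Tam.Defs

/-!
# The Tammes problem (MP_97a6ed_co): a generic axis
-/

namespace Tam

open Real

lemma dep_of_unit {x y : V} (hx : ‖x‖ = 1) (hy : ‖y‖ = 1) (hne : x ≠ y) (hne' : x ≠ -y) {α β : ℝ}
    (h : α • x + β • y = 0) : α = 0 ∧ β = 0 := by
  have h1 : α • x = -(β • y) := eq_neg_of_add_eq_zero_left h
  have h2 : |α| = |β| := by
    have := congrArg norm h1
    rwa [norm_neg, norm_smul, norm_smul, hx, hy, mul_one, mul_one, Real.norm_eq_abs, Real.norm_eq_abs] at this
  by_cases hα : α = 0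
  · refine ⟨hα, ?_⟩
    rw [hα, abs_zero] at h2
    exact abs_eq_zero.mp h2.symm
  · exfalso
    rcases abs_eq_abs.mp h2 with h3 | h3
    · apply hne'
      rw [← h3, ← smul_neg] at h1
      exact smul_right_injective V hα h1
    · apply hne
      have : β = -α := by rw [h3]; ring
      rw [this, neg_smul, neg_neg] at h1
      exact smul_right_injective V hα h1

/-- an axis outside the spans of all pairs -/
lemma exists_axis (X : Finset V) : ∃ u : V, ‖u‖ = 1 ∧ ∀ x ∈ X, ∀ y ∈ X, u ∉ Submodule.span ℝ {x, y} := by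
  classical
  set S : Finset (Submodule ℝ V) := insert ⊥ ((X ×ˢ X).image (fun p => Submodule.span ℝ {p.1, p.2})) with hS
  have htop : ⊤ ∉ S := by
    intro h
    rw [hS, Finset.mem_insert, Finset.mem_image] at h
    rcases h with h | ⟨p, -, hp⟩
    · exact top_ne_bot h
    have h1 : Module.finrank ℝ (Submodule.span ℝ ({p.1, p.2} : Set V)) ≤ 2 := by
      have h2 := finrank_span_finset_le_card (R := ℝ) ({p.1, p.2} : Finset V)
      have h3 : (({p.1, p.2} : Finset V) : Set V) = {p.1, p.2} := by simp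
      unfold Set.finrank at h2
      rw [h3] at h2
      exact h2.trans (Finset.card_le_two)
    rw [hp, finrank_top, finrank_euclideanSpace, Fintype.card_fin] at h1
    omega
  have h := Subspace.biUnion_ne_univ_of_top_notMem htop
  rw [Set.ne_univ_iff_exists_notMem] at h
  obtain ⟨u, hu⟩ := h
  have hu0 : u ≠ 0 := by
    intro h0
    apply hu
    rw [Set.mem_iUnion₂]
    exact ⟨⊥, by rw [hS]; exact Finset.mem_insert_self _ _, by rw [h0]; exact Submodule.zero_mem _⟩
  have hu' : ∀ x ∈ X, ∀ y ∈ X, u ∉ Submodule.span ℝ {x, y} := by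
    intro x hx y hy hmem
    apply hu
    rw [Set.mem_iUnion₂]
    exact ⟨Submodule.span ℝ {x, y}, by
      rw [hS]
      exact Finset.mem_insert_of_mem (Finset.mem_image.mpr ⟨(x, y), Finset.mem_product.mpr ⟨hx, hy⟩, rfl⟩), hmem⟩
  have hn : ‖u‖ ≠ 0 := norm_ne_zero_iff.mpr hu0
  refine ⟨‖u‖⁻¹ • u, ?_, fun x hx y hy hmem => hu' x hx y hy ?_⟩
  · rw [norm_smul, norm_inv, norm_norm, inv_mul_cancel₀ hn]
  · have := Submodule.smul_mem _ ‖u‖ hmem
    rwa [smul_smul, mul_inv_cancel₀ hn, one_smul] at this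

/-- every configuration can be rotated into general position with respect to the third axis -/
lemma exists_generic {n : ℕ} {c : ℝ} (h : Conf n c) : ∃ X : Finset V, X.card = n ∧ (∀ x ∈ X, ‖x‖ = 1) ∧
    (∀ x ∈ X, ∀ y ∈ X, x ≠ y → inner ℝ x y ≤ c) ∧
    ∀ x ∈ X, ∀ y ∈ X, x ≠ y → x ≠ -y → x 0 * y 1 - x 1 * y 0 ≠ 0 := by
  classical
  obtain ⟨X, hX, h1, h2⟩ := h
  obtain ⟨u, hu, hspan⟩ := exists_axis X
  have hfr : Module.finrank ℝ V = Fintype.card (Fin 3) := by
    rw [finrank_euclideanSpace]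
  have horth : Orthonormal ℝ (Set.domRestrict ({2} : Set (Fin 3)) (fun _ : Fin 3 => u)) := by
    constructor
    · intro i; exact hu
    · intro i j hij
      exact absurd (Subtype.ext (i.2.trans j.2.symm)) hij
  obtain ⟨b, hb⟩ := horth.exists_orthonormalBasis_extension_of_card_eq hfr
  have hb2 : b 2 = u := hb 2 rfl
  set T : V ≃ₗᵢ[ℝ] V := b.repr with hT
  have hTi : ∀ x y, inner ℝ (T x) (T y) = inner ℝ x y := fun x y => T.inner_map_map x y
  have hTc : ∀ x, x = (T x) 0 • b 0 + (T x) 1 • b 1 + (T x) 2 • u := by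
    intro x
    have := b.sum_repr x
    rw [Fin.sum_univ_three, hb2] at this
    exact this.symm
  refine ⟨X.map T.toEquiv.toEmbedding, by rw [Finset.card_map, hX], ?_, ?_, ?_⟩
  · intro x hx
    obtain ⟨x', hx', rfl⟩ := Finset.mem_map.mp hx
    show ‖T x'‖ = 1
    rw [T.norm_map]; exact h1 x' hx'
  · intro x hx y hy hxy
    obtain ⟨x', hx', rfl⟩ := Finset.mem_map.mp hx
    obtain ⟨y', hy', rfl⟩ := Finset.mem_map.mp hy
    show inner ℝ (T x') (T y') ≤ c
    rw [hTi]
    exact h2 x' hx' y' hy' (fun h => hxy (by rw [h]))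
  · intro x hx y hy hxy hxy' h0
    obtain ⟨x', hx', rfl⟩ := Finset.mem_map.mp hx
    obtain ⟨y', hy', rfl⟩ := Finset.mem_map.mp hy
    change T x' ≠ T y' at hxy
    change T x' ≠ -T y' at hxy'
    change (T x') 0 * (T y') 1 - (T x') 1 * (T y') 0 = 0 at h0
    have hne : x' ≠ y' := fun h => hxy (by rw [h])
    have hne' : x' ≠ -y' := fun h => hxy' (by rw [h, map_neg])
    have hx1 := h1 x' hx'
    have hy1 := h1 y' hy'
    -- combinations lying on the axis vanish
    have key : ∀ α β : ℝ, α * (T x') 0 + β * (T y') 0 = 0 → α * (T x') 1 + β * (T y') 1 = 0 →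
        α = 0 ∧ β = 0 := by
      intro α β e0 e1
      have e2 : α • x' + β • y' = (α * (T x') 2 + β * (T y') 2) • u := by
        conv_lhs => rw [hTc x', hTc y']
        have : α • ((T x') 0 • b 0 + (T x') 1 • b 1 + (T x') 2 • u) +
            β • ((T y') 0 • b 0 + (T y') 1 • b 1 + (T y') 2 • u) =
            (α * (T x') 0 + β * (T y') 0) • b 0 + (α * (T x') 1 + β * (T y') 1) • b 1 +
            (α * (T x') 2 + β * (T y') 2) • u := by
          simp only [smul_add, add_smul, mul_smul]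
          abel
        rw [this, e0, e1]; simp
      set γ : ℝ := α * (T x') 2 + β * (T y') 2 with hγ
      by_cases hγ0 : γ = 0
      · rw [hγ0, zero_smul] at e2
        exact dep_of_unit hx1 hy1 hne hne' e2
      · exfalso
        apply hspan x' hx' y' hy'
        have : u = (γ⁻¹ * α) • x' + (γ⁻¹ * β) • y' := by
          rw [mul_smul, mul_smul, ← smul_add, e2, smul_smul, inv_mul_cancel₀ hγ0, one_smul]
        rw [this]
        exact Submodule.mem_span_pair.mpr ⟨_, _, rfl⟩
    have k0 := key ((T y') 0) (-(T x') 0) (by ring) (by linarith)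
    have k1 := key ((T y') 1) (-(T x') 1) (by linarith) (by ring)
    have k2 := key 1 0 (by rw [neg_eq_zero.mp k0.2]; ring) (by rw [neg_eq_zero.mp k1.2]; ring)
    exact one_ne_zero k2.1

end Tam
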