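import Pool.Agent.Tam.Gen

/-!
# The Tammes problem (MP_97a6ed_co): a rotation with a prescribed second axis and a generic third axis
-/

namespace Tam

open Real

/-- a rotation sending `f` to the second coordinate vector, with the third coordinate vector in
general position -/
theorem exists_rot (X : Finset V) (h1 : ∀ x ∈ X, ‖x‖ = 1) {f : V} (hf : ‖f‖ = 1)
    (hX : ∀ x ∈ X, inner ℝ x f ≠ 0) :
    ∃ T : V ≃ₗᵢ[ℝ] V, (∀ x, (T x) 1 = inner ℝ x f) ∧
      ∀ x ∈ X, ∀ y ∈ X, x ≠ y → x ≠ -y → (T x) 0 * (T y) 1 - (T x) 1 * (T y) 0 ≠ 0 := by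
  classical
  have hfr : Module.finrank ℝ V = Fintype.card (Fin 3) := by
    rw [finrank_euclideanSpace]
  have hf0 : f ≠ 0 := by
    intro h0
    rw [h0, norm_zero] at hf
    exact zero_ne_one hf
  obtain ⟨W, hW⟩ : ∃ W : Submodule ℝ V, W = (ℝ ∙ f)ᗮ := ⟨_, rfl⟩
  have hmemW : ∀ z : V, z ∈ W ↔ inner ℝ z f = 0 := by
    intro z
    rw [hW, Submodule.mem_orthogonal_singleton_iff_inner_left]
  have hWfr : Module.finrank ℝ W = 2 := by
    have : Fact (Module.finrank ℝ V = 2 + 1) := ⟨by rw [hfr, Fintype.card_fin]⟩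
    rw [hW]
    exact Submodule.finrank_orthogonal_span_singleton hf0
  set S : Finset (Submodule ℝ W) :=
    insert ⊥ ((X ×ˢ X).image (fun p => (Submodule.span ℝ {p.1, p.2}).comap W.subtype)) with hS
  have htop : ⊤ ∉ S := by
    intro h
    rw [hS, Finset.mem_insert, Finset.mem_image] at h
    rcases h with h | ⟨p, hp0, hp⟩
    · have h2 : Module.finrank ℝ (⊤ : Submodule ℝ W) = 2 := by rw [finrank_top, hWfr]
      rw [h, finrank_bot] at h2
      omega
    have hle : W ≤ Submodule.span ℝ {p.1, p.2} := by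
      intro z hz
      have : (⟨z, hz⟩ : W) ∈ (⊤ : Submodule ℝ W) := Submodule.mem_top
      rw [← hp] at this
      exact this
    have h3 : Module.finrank ℝ (Submodule.span ℝ ({p.1, p.2} : Set V)) ≤ 2 := by
      have h2 := finrank_span_finset_le_card (R := ℝ) ({p.1, p.2} : Finset V)
      have h3 : (({p.1, p.2} : Finset V) : Set V) = {p.1, p.2} := by simp
      unfold Set.finrank at h2
      rw [h3] at h2
      exact h2.trans (Finset.card_le_two)
    have heq : W = Submodule.span ℝ {p.1, p.2} :=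
      Submodule.eq_of_le_of_finrank_le hle (by rw [hWfr]; exact h3)
    have hpX : p.1 ∈ X := (Finset.mem_product.1 hp0).1
    apply hX p.1 hpX
    rw [← hmemW, heq]
    exact Submodule.subset_span (Set.mem_insert _ _)
  have h := Subspace.biUnion_ne_univ_of_top_notMem htop
  rw [Set.ne_univ_iff_exists_notMem] at h
  obtain ⟨u', hu'⟩ := h
  have hu0 : u' ≠ 0 := by
    intro h0
    apply hu'
    rw [Set.mem_iUnion₂]
    exact ⟨⊥, by rw [hS]; exact Finset.mem_insert_self _ _, by rw [h0]; exact Submodule.zero_mem _⟩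
  have hu'' : ∀ x ∈ X, ∀ y ∈ X, (u' : V) ∉ Submodule.span ℝ {x, y} := by
    intro x hx y hy hmem
    apply hu'
    rw [Set.mem_iUnion₂]
    exact ⟨(Submodule.span ℝ {x, y}).comap W.subtype, by
      rw [hS]
      exact Finset.mem_insert_of_mem (Finset.mem_image.mpr ⟨(x, y), Finset.mem_product.mpr ⟨hx, hy⟩, rfl⟩), hmem⟩
  have hn : ‖(u' : V)‖ ≠ 0 := by
    rw [norm_ne_zero_iff]
    intro h0
    exact hu0 (Subtype.ext h0)
  obtain ⟨u, hu⟩ : ∃ u : V, u = ‖(u' : V)‖⁻¹ • (u' : V) := ⟨_, rfl⟩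
  have hu1 : ‖u‖ = 1 := by
    rw [hu, norm_smul, norm_inv, norm_norm, inv_mul_cancel₀ hn]
  have huf : inner ℝ u f = 0 := by
    rw [← hmemW, hu]
    exact W.smul_mem _ u'.2
  have hspan : ∀ x ∈ X, ∀ y ∈ X, u ∉ Submodule.span ℝ {x, y} := by
    intro x hx y hy hmem
    apply hu'' x hx y hy
    have := Submodule.smul_mem _ ‖(u' : V)‖ hmem
    rwa [hu, smul_smul, mul_inv_cancel₀ hn, one_smul] at this
  have horth : Orthonormal ℝ (Set.domRestrict ({1, 2} : Set (Fin 3))
      (fun i : Fin 3 => if i = 1 then f else u)) := by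
    constructor
    · intro i
      show ‖(if (i : Fin 3) = 1 then f else u)‖ = 1
      split_ifs
      · exact hf
      · exact hu1
    · intro i j hij
      show inner ℝ (if (i : Fin 3) = 1 then f else u) (if (j : Fin 3) = 1 then f else u) = 0
      rcases i.2 with hi | hi <;> rcases j.2 with hj | hj
      · exact absurd (Subtype.ext (hi.trans hj.symm)) hij
      · have hj' : (j : Fin 3) = 2 := hj
        rw [if_pos hi, if_neg (by rw [hj']; decide), real_inner_comm]
        exact huf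
      · have hi' : (i : Fin 3) = 2 := hi
        rw [if_neg (by rw [hi']; decide), if_pos hj]
        exact huf
      · exact absurd (Subtype.ext (hi.trans hj.symm)) hij
  obtain ⟨b, hb⟩ := horth.exists_orthonormalBasis_extension_of_card_eq hfr
  have hb1 : b 1 = f := by
    have := hb 1 (by simp)
    rw [this]
    rfl
  have hb2 : b 2 = u := by
    have := hb 2 (by simp)
    rw [this]
    rfl
  refine ⟨b.repr, ?_, ?_⟩
  · intro x
    rw [b.repr_apply_apply, hb1, real_inner_comm]
  obtain ⟨T, hT⟩ : ∃ T : V ≃ₗᵢ[ℝ] V, T = b.repr := ⟨_, rfl⟩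
  have hTc : ∀ x, x = (T x) 0 • b 0 + (T x) 1 • b 1 + (T x) 2 • u := by
    intro x
    have := b.sum_repr x
    rw [Fin.sum_univ_three, hb2] at this
    rw [hT]
    exact this.symm
  rw [← hT]
  intro x hx y hy hne hne' h0
  have hx1 := h1 x hx
  have hy1 := h1 y hy
  -- combinations lying on the axis vanish
  have key : ∀ α β : ℝ, α * (T x) 0 + β * (T y) 0 = 0 → α * (T x) 1 + β * (T y) 1 = 0 →
      α = 0 ∧ β = 0 := by
    intro α β e0 e1
    have e2 : α • x + β • y = (α * (T x) 2 + β * (T y) 2) • u := by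
      conv_lhs => rw [hTc x, hTc y]
      have : α • ((T x) 0 • b 0 + (T x) 1 • b 1 + (T x) 2 • u) +
          β • ((T y) 0 • b 0 + (T y) 1 • b 1 + (T y) 2 • u) =
          (α * (T x) 0 + β * (T y) 0) • b 0 + (α * (T x) 1 + β * (T y) 1) • b 1 +
          (α * (T x) 2 + β * (T y) 2) • u := by
        simp only [smul_add, add_smul, mul_smul]
        abel
      rw [this, e0, e1]; simp
    obtain ⟨γ, hγ⟩ : ∃ γ : ℝ, γ = α * (T x) 2 + β * (T y) 2 := ⟨_, rfl⟩
    rw [← hγ] at e2
    by_cases hγ0 : γ = 0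
    · rw [hγ0, zero_smul] at e2
      exact dep_of_unit hx1 hy1 hne hne' e2
    · exfalso
      apply hspan x hx y hy
      have : u = (γ⁻¹ * α) • x + (γ⁻¹ * β) • y := by
        rw [mul_smul, mul_smul, ← smul_add, e2, smul_smul, inv_mul_cancel₀ hγ0, one_smul]
      rw [this]
      exact Submodule.mem_span_pair.mpr ⟨_, _, rfl⟩
  have k0 := key ((T y) 0) (-(T x) 0) (by ring) (by linarith)
  have k1 := key ((T y) 1) (-(T x) 1) (by linarith) (by ring)
  have k2 := key 1 0 (by rw [neg_eq_zero.mp k0.2]; ring) (by rw [neg_eq_zero.mp k1.2]; ring)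
  exact one_ne_zero k2.1

end Tam
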