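import Pool.Agent.Tam.Cut2
import Pool.Agent.Tam.Avg
import Pool.Agent.Tam.Rot

/-!
# The Tammes problem (MP_97a6ed_co): few points near one of the halves of a great circle
-/

namespace Tam

open Real

/-- the points near the opposite half of the great circle -/
def near2' (c : ℝ) (x : V) : Prop := (x 0 < 0 ∧ x 1 ^ 2 ≤ (1 - c) / 2) ∨ (1 + c) / 2 < x 2 ^ 2

/-- rotation by `π` about the third axis -/
noncomputable def flip (x : V) : V := !₂[-x 0, -x 1, x 2]

lemma flip_0 (x : V) : flip x 0 = -x 0 := rfl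
lemma flip_1 (x : V) : flip x 1 = -x 1 := rfl
lemma flip_2 (x : V) : flip x 2 = x 2 := rfl

lemma flip_flip (x : V) : flip (flip x) = x := by
  ext i
  fin_cases i
  · show flip (flip x) 0 = x 0
    rw [flip_0, flip_0, neg_neg]
  · show flip (flip x) 1 = x 1
    rw [flip_1, flip_1, neg_neg]
  · show flip (flip x) 2 = x 2
    rw [flip_2, flip_2]

lemma inner_flip (x y : V) : inner ℝ (flip x) (flip y) = inner ℝ x y := by
  rw [inner_eq, inner_eq, flip_0, flip_0, flip_1, flip_1, flip_2, flip_2]; ring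

lemma norm_flip {x : V} (hx : ‖x‖ = 1) : ‖flip x‖ = 1 := by
  rw [norm_one_iff] at hx ⊢
  rw [flip_0, flip_1, flip_2]; linarith

theorem improve2' {X : Finset V} {c : ℝ} (h1 : ∀ x ∈ X, ‖x‖ = 1)
    (h2 : ∀ x ∈ X, ∀ y ∈ X, x ≠ y → inner ℝ x y ≤ c)
    (hgen : ∀ x ∈ X, ∀ y ∈ X, x ≠ y → x ≠ -y → x 0 * y 1 - x 1 * y 0 ≠ 0)
    (hc : -1 < c) (hc1 : c < 1) (hn : ∀ x ∈ X, ¬ near2' c x) :
    ∃ c' < c, Conf X.card c' := by
  classical
  have hinj : Function.Injective flip := fun x y h => by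
    rw [← flip_flip x, h, flip_flip]
  have := improve2 (X := X.image flip) (c := c) ?_ ?_ ?_ hc hc1 ?_
  · rwa [Finset.card_image_of_injective _ hinj] at this
  · intro x hx
    obtain ⟨x', hx', rfl⟩ := Finset.mem_image.mp hx
    exact norm_flip (h1 _ hx')
  · intro x hx y hy hxy
    obtain ⟨x', hx', rfl⟩ := Finset.mem_image.mp hx
    obtain ⟨y', hy', rfl⟩ := Finset.mem_image.mp hy
    rw [inner_flip]
    exact h2 _ hx' _ hy' (fun h => hxy (by rw [h]))
  · intro x hx y hy hxy hxy'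
    obtain ⟨x', hx', rfl⟩ := Finset.mem_image.mp hx
    obtain ⟨y', hy', rfl⟩ := Finset.mem_image.mp hy
    rw [flip_0, flip_0, flip_1, flip_1]
    have h3 := hgen _ hx' _ hy' (fun h => hxy (by rw [h])) (fun h => hxy' (by
      rw [h]
      ext i
      fin_cases i
      · show flip (-y') 0 = -(flip y' 0)
        rw [flip_0, flip_0]; rfl
      · show flip (-y') 1 = -(flip y' 1)
        rw [flip_1, flip_1]; rfl
      · show flip (-y') 2 = -(flip y' 2)
        rw [flip_2, flip_2]; rfl))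
    intro h4
    apply h3
    linarith
  · intro x hx hnear
    obtain ⟨x', hx', rfl⟩ := Finset.mem_image.mp hx
    apply hn _ hx'
    unfold near2 at hnear
    rw [flip_0, flip_1, flip_2] at hnear
    unfold near2'
    rcases hnear with h | h
    · left; exact ⟨by linarith [h.1], by nlinarith [h.2]⟩
    · right; exact h

/-- at most two points are near the poles -/
lemma card_polar {Y : Finset V} {c : ℝ} (h1 : ∀ x ∈ Y, ‖x‖ = 1)
    (h2 : ∀ x ∈ Y, ∀ y ∈ Y, x ≠ y → inner ℝ x y ≤ c) (hc : -1 < c) :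
    by classical exact (Y.filter fun x => (1 + c) / 2 < x 2 ^ 2).card ≤ 2 := by
  classical
  set C : ℝ := √((1 + c) / 2) with hC
  have hC0 : 0 ≤ C := Real.sqrt_nonneg _
  have hC2 : C ^ 2 = (1 + c) / 2 := Real.sq_sqrt (by linarith)
  set e : V := EuclideanSpace.single (2 : Fin 3) (1 : ℝ) with he
  have he1 : ‖e‖ = 1 := by rw [he]; simp
  have hei : ∀ x : V, inner ℝ x e = x 2 := by
    intro x; rw [he, EuclideanSpace.inner_single_right]; simp
  have hsub : (Y.filter fun x => (1 + c) / 2 < x 2 ^ 2) ⊆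
      (Y.filter fun x => C < x 2) ∪ (Y.filter fun x => x 2 < -C) := by
    intro x hx
    rw [Finset.mem_filter, ← hC2] at hx
    rw [Finset.mem_union, Finset.mem_filter, Finset.mem_filter]
    by_contra hcon
    push Not at hcon
    have ha := hcon.1 hx.1
    have hb := hcon.2 hx.1
    have := hx.2
    nlinarith
  have hA : (Y.filter fun x => C < x 2).card ≤ 1 := by
    rw [Finset.card_le_one]
    intro x hx y hy
    rw [Finset.mem_filter] at hx hy
    by_contra hne
    have h3 := h2 x hx.1 y hy.1 hne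
    have h4 := cap_unique (h1 x hx.1) (h1 y hy.1) he1 hC0 (by rw [hei]; exact hx.2)
      (by rw [hei]; exact hy.2)
    rw [hC2] at h4
    linarith
  have hB : (Y.filter fun x => x 2 < -C).card ≤ 1 := by
    rw [Finset.card_le_one]
    intro x hx y hy
    rw [Finset.mem_filter] at hx hy
    by_contra hne
    have h3 := h2 x hx.1 y hy.1 hne
    have h4 := cap_unique (x := x) (y := y) (f := -e) (h1 x hx.1) (h1 y hy.1) (by rw [norm_neg]; exact he1)
      hC0 (by rw [inner_neg_right, hei]; linarith [hx.2]) (by rw [inner_neg_right, hei]; linarith [hy.2])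
    rw [hC2] at h4
    linarith
  calc _ ≤ _ := Finset.card_le_card hsub
    _ ≤ _ := Finset.card_union_le _ _
    _ ≤ 2 := by omega

/-- the two halves together -/
lemma card_halves {Y : Finset V} {c : ℝ} (h1 : ∀ x ∈ Y, ‖x‖ = 1)
    (h2 : ∀ x ∈ Y, ∀ y ∈ Y, x ≠ y → inner ℝ x y ≤ c) (hc : -1 < c) :
    by classical exact (Y.filter (near2 c)).card + (Y.filter (near2' c)).card ≤
      (Y.filter fun x => x 1 ^ 2 ≤ (1 - c) / 2).card + 2 := by
  classical
  have h3 := card_polar h1 h2 hc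
  refine le_trans ?_ (Nat.add_le_add_left h3 _)
  rw [Finset.card_filter, Finset.card_filter, Finset.card_filter, Finset.card_filter,
    ← Finset.sum_add_distrib, ← Finset.sum_add_distrib]
  apply Finset.sum_le_sum
  intro x hx
  have hx1 := (norm_one_iff x).mp (h1 x hx)
  unfold near2 near2'
  by_cases hD : (1 + c) / 2 < x 2 ^ 2
  · have hS : x 1 ^ 2 ≤ (1 - c) / 2 := by nlinarith [sq_nonneg (x 0)]
    simp only [hD, hS, or_true, if_true]
    exact le_rfl
  · simp only [hD, or_false, if_false]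
    by_cases hS : x 1 ^ 2 ≤ (1 - c) / 2
    · simp only [hS, and_true, if_true]
      by_cases h0 : 0 < x 0
      · rw [if_pos h0, if_neg (by linarith)]
      · rw [if_neg h0]
        split_ifs <;> omega
    · simp only [hS, and_false, if_false]
      exact le_rfl

/-- removing few points and improving -/
theorem remove {n : ℕ} {c : ℝ} (h : Conf n c) (hc : -1 < c) (hc1 : c < 1) :
    ∃ j : ℕ, (j : ℝ) ≤ n * √((1 - c) / 2) / 2 + 1 ∧ ∃ c' < c, Conf (n - j) c' := by
  classical
  obtain ⟨X, hX, g1, g2⟩ := h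
  set σ : ℝ := √((1 - c) / 2) with hσ
  have hσ0 : 0 ≤ σ := Real.sqrt_nonneg _
  have hσ2 : σ ^ 2 = (1 - c) / 2 := Real.sq_sqrt (by linarith)
  have hσ1 : σ ≤ 1 := by nlinarith
  obtain ⟨f, hf, hf0, hfc⟩ := exists_dir X g1 hσ0 hσ1
  obtain ⟨T, hT1, hTg⟩ := exists_rot X g1 hf hf0
  set Y : Finset V := X.map T.toEquiv.toEmbedding with hY
  have hYm : ∀ y ∈ Y, ∃ x ∈ X, T x = y := by
    intro y hy
    obtain ⟨x, hx, hxy⟩ := Finset.mem_map.mp hy
    exact ⟨x, hx, hxy⟩
  have hYc : Y.card = n := by rw [hY, Finset.card_map, hX]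
  have y1 : ∀ x ∈ Y, ‖x‖ = 1 := by
    intro x hx
    obtain ⟨x', hx', rfl⟩ := hYm x hx
    rw [T.norm_map]; exact g1 x' hx'
  have y2 : ∀ x ∈ Y, ∀ y ∈ Y, x ≠ y → inner ℝ x y ≤ c := by
    intro x hx y hy hxy
    obtain ⟨x', hx', rfl⟩ := hYm x hx
    obtain ⟨y', hy', rfl⟩ := hYm y hy
    rw [T.inner_map_map]
    exact g2 x' hx' y' hy' (fun h => hxy (by rw [h]))
  have y3 : ∀ x ∈ Y, ∀ y ∈ Y, x ≠ y → x ≠ -y → x 0 * y 1 - x 1 * y 0 ≠ 0 := by
    intro x hx y hy hxy hxy'
    obtain ⟨x', hx', rfl⟩ := hYm x hx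
    obtain ⟨y', hy', rfl⟩ := hYm y hy
    exact hTg x' hx' y' hy' (fun h => hxy (by rw [h])) (fun h => hxy' (by rw [h, map_neg]))
  have hS : (Y.filter fun x => x 1 ^ 2 ≤ (1 - c) / 2).card =
      (X.filter fun x => (inner ℝ x f) ^ 2 ≤ σ ^ 2).card := by
    rw [hY, Finset.filter_map, Finset.card_map]
    congr 1
    apply Finset.filter_congr
    intro x hx
    rw [hσ2]
    show (T x) 1 ^ 2 ≤ _ ↔ _
    rw [hT1]
  have h3 := card_halves y1 y2 hc
  rw [hS] at h3
  have h3' : ((Y.filter (near2 c)).card : ℝ) + (Y.filter (near2' c)).card ≤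
      (X.filter fun x => (inner ℝ x f) ^ 2 ≤ σ ^ 2).card + 2 := by exact_mod_cast h3
  rw [hX] at hfc
  rcases le_total ((Y.filter (near2 c)).card : ℝ) ((Y.filter (near2' c)).card : ℝ) with hle | hle
  · refine ⟨(Y.filter (near2 c)).card, by linarith, ?_⟩
    have h4 : (Y.filter (fun x => ¬ near2 c x)).card = n - (Y.filter (near2 c)).card := by
      have h5 : (Y.filter (near2 c)).card + (Y.filter (fun x => ¬ near2 c x)).card = Y.card :=
        Finset.card_filter_add_card_filter_not (near2 c)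
      rw [← hYc, ← h5]
      exact (Nat.add_sub_cancel_left _ _).symm
    rw [← h4]
    exact improve2 (fun x hx => y1 x (Finset.mem_filter.mp hx).1)
      (fun x hx y hy => y2 x (Finset.mem_filter.mp hx).1 y (Finset.mem_filter.mp hy).1)
      (fun x hx y hy => y3 x (Finset.mem_filter.mp hx).1 y (Finset.mem_filter.mp hy).1)
      hc hc1 (fun x hx => (Finset.mem_filter.mp hx).2)
  · refine ⟨(Y.filter (near2' c)).card, by linarith, ?_⟩
    have h4 : (Y.filter (fun x => ¬ near2' c x)).card = n - (Y.filter (near2' c)).card := by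
      have h5 : (Y.filter (near2' c)).card + (Y.filter (fun x => ¬ near2' c x)).card = Y.card :=
        Finset.card_filter_add_card_filter_not (near2' c)
      rw [← hYc, ← h5]
      exact (Nat.add_sub_cancel_left _ _).symm
    rw [← h4]
    exact improve2' (fun x hx => y1 x (Finset.mem_filter.mp hx).1)
      (fun x hx y hy => y2 x (Finset.mem_filter.mp hx).1 y (Finset.mem_filter.mp hy).1)
      (fun x hx y hy => y3 x (Finset.mem_filter.mp hx).1 y (Finset.mem_filter.mp hy).1)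
      hc hc1 (fun x hx => (Finset.mem_filter.mp hx).2)

/-- from the packing bound -/
lemma half_lt_sqrt {n : ℕ} {c : ℝ} (h : Conf n c) (hn1 : 1 ≤ n) (hc : -1 < c) (hc1 : c < 1) :
    n * √((1 - c) / 2) / 2 < √(n : ℝ) := by
  obtain ⟨X, hX, g1, g2⟩ := h
  set C : ℝ := √((1 + c) / 2) with hC
  have hC0 : 0 ≤ C := Real.sqrt_nonneg _
  have hC2 : C ^ 2 = (1 + c) / 2 := Real.sq_sqrt (by linarith)
  have hC1 : C < 1 := by nlinarith
  have h1 := packing X g1 hC0 hC1.le (fun x hx y hy hxy => by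
    have := g2 x hx y hy hxy
    rw [hC2]; linarith)
  rw [hX] at h1
  have hn : (0 : ℝ) < n := by exact_mod_cast hn1
  rw [Real.lt_sqrt (by positivity)]
  have hσ2 : √((1 - c) / 2) ^ 2 = (1 - c) / 2 := Real.sq_sqrt (by linarith)
  have h2 : (n * √((1 - c) / 2) / 2) ^ 2 = (n : ℝ) * (n * (1 - C) * (1 + C)) / 4 := by
    have : (n * √((1 - c) / 2) / 2) ^ 2 = (n : ℝ) ^ 2 * √((1 - c) / 2) ^ 2 / 4 := by ring
    rw [this, hσ2]
    have h3 : (1 - c) / 2 = (1 - C) * (1 + C) := by nlinarith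
    rw [h3]; ring
  rw [h2]
  have h4 : (n : ℝ) * (1 - C) * (1 + C) < 4 := by
    have h5 : (n : ℝ) * (1 - C) * (1 + C) ≤ 2 * (1 + C) :=
      mul_le_mul_of_nonneg_right h1 (by linarith)
    linarith
  nlinarith

/-- three points -/
lemma Conf.gt_neg_one {n : ℕ} {c : ℝ} (h : Conf n c) (hn : 3 ≤ n) : -1 < c := by
  obtain ⟨X, hX, g1, g2⟩ := h
  obtain ⟨x, hx, y, hy, z, hz, hxy, hxz, hyz⟩ := Finset.two_lt_card.mp (by omega : 2 < X.card)
  have a1 := g2 x hx y hy hxy
  have a2 := g2 x hx z hz hxz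
  have a3 := g2 y hy z hz hyz
  have b1 := (norm_one_iff x).mp (g1 x hx)
  have b2 := (norm_one_iff y).mp (g1 y hy)
  have b3 := (norm_one_iff z).mp (g1 z hz)
  rw [inner_eq] at a1 a2 a3
  nlinarith [sq_nonneg (x 0 + y 0 + z 0), sq_nonneg (x 1 + y 1 + z 1), sq_nonneg (x 2 + y 2 + z 2)]

end Tam
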